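import Mathlib

set_option autoImplicit false

/-!
# Number of generators of finite linear `l`-groups, group part
-/

namespace MP89bZ

open MulAction

/-- A finite `l`-group has an abelian normal subgroup that contains its own centralizer. -/
theorem exists_selfcentral {l : ℕ} [Fact l.Prime] {Q : Type*} [Group Q] [Finite Q]
    (hQ : IsPGroup l Q) :
    ∃ Z : Subgroup Q, Z.Normal ∧ (∀ x ∈ Z, ∀ y ∈ Z, x * y = y * x) ∧
      ∀ g : Q, (∀ z ∈ Z, g * z = z * g) → g ∈ Z := by
  classical
  obtain ⟨Z, hZ⟩ := (Set.toFinite {Z : Subgroup Q | Z.Normal ∧ ∀ x ∈ Z, ∀ y ∈ Z, x * y = y * x}).exists_maximal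
    ⟨⊥, inferInstance, fun x hx y hy => by
      rw [Subgroup.mem_bot] at hx hy; rw [hx, hy]⟩
  obtain ⟨⟨hn, hab⟩, hmax⟩ := hZ
  refine ⟨Z, hn, hab, fun g hg => ?_⟩
  by_contra hgZ
  -- the centralizer
  set C : Subgroup Q := Subgroup.centralizer (Z : Set Q) with hC
  have hCn : C.Normal := by
    constructor
    intro c hc q
    rw [hC, Subgroup.mem_centralizer_iff] at hc ⊢
    intro z hz
    have h1 : q⁻¹ * z * q ∈ Z := by
      have := hn.conj_mem z hz q⁻¹
      simpa using this
    have h2 := hc (q⁻¹ * z * q) h1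
    calc z * (q * c * q⁻¹) = q * (q⁻¹ * z * q * c) * q⁻¹ := by group
      _ = q * (c * (q⁻¹ * z * q)) * q⁻¹ := by rw [h2]
      _ = q * c * q⁻¹ * z := by group
  have hgC : g ∈ C := by
    rw [hC, Subgroup.mem_centralizer_iff]
    intro z hz
    exact (hg z hz).symm
  set C' : Subgroup (Q ⧸ Z) := C.map (QuotientGroup.mk' Z) with hC'
  have hC'n : C'.Normal := hCn.map _ (QuotientGroup.mk'_surjective Z)
  have hp : IsPGroup l (ConjAct (Q ⧸ Z)) := hQ.to_quotient Z
  have hpC : IsPGroup l C' := (hQ.to_quotient Z).to_subgroup C'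
  have hdvd : l ∣ Nat.card C' := by
    rcases hpC.card_eq_or_dvd with h | h
    · exfalso
      have : C' = ⊥ := Subgroup.eq_bot_of_card_eq C' h
      have h1 : (QuotientGroup.mk' Z) g ∈ C' := Subgroup.mem_map_of_mem _ hgC
      rw [this, Subgroup.mem_bot] at h1
      exact hgZ ((QuotientGroup.eq_one_iff g).1 h1)
    · exact h
  obtain ⟨b, hb, hb1⟩ := hp.exists_fixed_point_of_prime_dvd_card_of_fixed_point C' hdvd
    (a := (1 : C')) (by
      rw [mem_fixedPoints]
      intro q
      exact smul_one q)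
  obtain ⟨x, hx, hxb⟩ := Subgroup.mem_map.1 b.2
  have hxZ : x ∉ Z := by
    intro h
    apply hb1
    have h1 : (QuotientGroup.mk' Z) x = 1 := (QuotientGroup.eq_one_iff x).2 h
    rw [h1] at hxb
    exact Subtype.ext hxb
  have hxc : ∀ q : Q, x⁻¹ * (q * x * q⁻¹) ∈ Z := by
    intro q
    rw [mem_fixedPoints] at hb
    have h1 := hb (ConjAct.toConjAct ((QuotientGroup.mk' Z) q))
    have h2 := congrArg (Subtype.val) h1
    rw [ConjAct.Subgroup.val_conj_smul, ConjAct.toConjAct_smul, ← hxb] at h2
    rw [← QuotientGroup.eq_one_iff]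
    have h3 : ((x⁻¹ * (q * x * q⁻¹) : Q) : Q ⧸ Z) =
        ((QuotientGroup.mk' Z) x)⁻¹ * ((QuotientGroup.mk' Z) q * (QuotientGroup.mk' Z) x *
          ((QuotientGroup.mk' Z) q)⁻¹) := rfl
    rw [h3, h2]
    group
  -- the larger group
  set Z1 : Subgroup Q := Subgroup.closure ((Z : Set Q) ∪ {x}) with hZ1
  have hsub : (Z : Set Q) ∪ {x} ⊆ Z1 := Subgroup.subset_closure
  have hZZ1 : Z ≤ Z1 := fun z hz => hsub (Or.inl hz)
  have hxZ1 : x ∈ Z1 := hsub (Or.inr rfl)
  have hxcent : ∀ z ∈ Z, x * z = z * x := by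
    intro z hz
    rw [hC, Subgroup.mem_centralizer_iff] at hx
    exact (hx z hz).symm
  have habel : ∀ y ∈ Z1, ∀ w ∈ Z1, y * w = w * y := by
    have h1 : Z1 ≤ Subgroup.centralizer ((Z : Set Q) ∪ {x}) := by
      rw [hZ1, Subgroup.closure_le]
      rintro y (hy | hy)
      · rw [SetLike.mem_coe, Subgroup.mem_centralizer_iff]
        rintro w (hw | hw)
        · exact hab w hw y hy
        · rw [Set.mem_singleton_iff] at hw
          rw [hw]
          exact hxcent y hy
      · rw [Set.mem_singleton_iff] at hy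
        rw [hy, SetLike.mem_coe, Subgroup.mem_centralizer_iff]
        rintro w (hw | hw)
        · exact (hxcent w hw).symm
        · rw [Set.mem_singleton_iff] at hw
          rw [hw]
    intro y hy w hw
    have h2 : y ∈ Subgroup.centralizer (Z1 : Set Q) := by
      rw [hZ1, Subgroup.centralizer_closure]
      exact h1 hy
    rw [Subgroup.mem_centralizer_iff] at h2
    exact (h2 w hw).symm
  have hnorm : Z1.Normal := by
    constructor
    intro y hy q
    have h1 : Z1 ≤ Z1.comap (MulAut.conj q).toMonoidHom := by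
      conv_lhs => rw [hZ1]
      rw [Subgroup.closure_le]
      rintro w (hw | hw)
      · rw [SetLike.mem_coe, Subgroup.mem_comap]
        exact hZZ1 (hn.conj_mem w hw q)
      · rw [Set.mem_singleton_iff] at hw
        rw [hw, SetLike.mem_coe, Subgroup.mem_comap]
        have h2 : (MulAut.conj q).toMonoidHom x = x * (x⁻¹ * (q * x * q⁻¹)) := by
          show q * x * q⁻¹ = _
          group
        rw [h2]
        exact Z1.mul_mem hxZ1 (hZZ1 (hxc q))
    exact h1 hy
  exact hxZ (hmax ⟨hnorm, habel⟩ hZZ1 hxZ1)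

open Module Module.End

section weights

variable {K V Z : Type*} [Field K] [IsAlgClosed K] [CharZero K] [AddCommGroup V] [Module K V]
  [FiniteDimensional K V]

/-- an endomorphism of finite order is semisimple -/
theorem semisimple_of_pow {f : Module.End K V} {N : ℕ} (hN : N ≠ 0) (h : f ^ N = 1) :
    f.IsSemisimple := by
  have hsep : (Polynomial.X ^ N - 1 : Polynomial K).Separable :=
    Polynomial.X_pow_sub_one_separable_iff.2 (by exact_mod_cast hN)
  refine Module.End.isSemisimple_of_squarefree_aeval_eq_zero hsep.squarefree ?_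
  simp [h]

/-- weight space of a commuting family -/
def U (f : Z → Module.End K V) (χ : Z → K) : Submodule K V := ⨅ z, (f z).eigenspace (χ z)

theorem mem_U {f : Z → Module.End K V} {χ : Z → K} {v : V} :
    v ∈ U f χ ↔ ∀ z, f z v = χ z • v := by
  simp [U, Submodule.mem_iInf, Module.End.mem_eigenspace_iff]

variable {f : Z → Module.End K V} {N : ℕ}

theorem U_eq (hN : N ≠ 0) (h : ∀ z, f z ^ N = 1) (χ : Z → K) :
    U f χ = ⨅ z, (f z).maxGenEigenspace (χ z) := by
  unfold U
  congr 1
  funext z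
  exact ((semisimple_of_pow hN (h z)).isFinitelySemisimple.maxGenEigenspace_eq_eigenspace _).symm

theorem iSup_U (hN : N ≠ 0) (h : ∀ z, f z ^ N = 1) (hc : ∀ z z', Commute (f z) (f z')) :
    ⨆ χ, U f χ = ⊤ := by
  simp_rw [U_eq hN h]
  refine Module.End.iSup_iInf_maxGenEigenspace_eq_top_of_iSup_maxGenEigenspace_eq_top_of_commute f
    (fun z z' _ => hc z z') fun z => ?_
  exact Module.End.iSup_maxGenEigenspace_eq_top (f z)

theorem indep_U (hN : N ≠ 0) (h : ∀ z, f z ^ N = 1) (hc : ∀ z z', Commute (f z) (f z')) :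
    iSupIndep (U f) := by
  have : U f = fun χ => ⨅ z, (f z).maxGenEigenspace (χ z) := funext fun χ => U_eq hN h χ
  rw [this]
  exact Module.End.independent_iInf_maxGenEigenspace_of_forall_mapsTo f
    (fun i j φ => Module.End.mapsTo_maxGenEigenspace_of_comm (hc j i) φ)

theorem finite_W (hN : N ≠ 0) (h : ∀ z, f z ^ N = 1) (hc : ∀ z z', Commute (f z) (f z')) :
    Finite {χ // U f χ ≠ ⊥} :=
  (WellFoundedGT.finite_ne_bot_of_iSupIndep (indep_U hN h hc)).to_subtype

theorem card_W (hN : N ≠ 0) (h : ∀ z, f z ^ N = 1) (hc : ∀ z z', Commute (f z) (f z')) :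
    Nat.card {χ // U f χ ≠ ⊥} ≤ finrank K V := by
  have := finite_W hN h hc
  have : Fintype {χ // U f χ ≠ ⊥} := Fintype.ofFinite _
  rw [Nat.card_eq_fintype_card]
  exact (indep_U hN h hc).subtype_ne_bot_le_finrank

/-- two endomorphisms which agree on all weight spaces are equal -/
theorem eq_of_weights (hN : N ≠ 0) (h : ∀ z, f z ^ N = 1) (hc : ∀ z z', Commute (f z) (f z'))
    {a b : Module.End K V} (hab : ∀ χ, U f χ ≠ ⊥ → ∀ v ∈ U f χ, a v = b v) : a = b := by
  have h1 : (⊤ : Submodule K V) ≤ LinearMap.eqLocus a b := by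
    rw [← iSup_U hN h hc]
    refine iSup_le fun χ => ?_
    by_cases hχ : U f χ = ⊥
    · rw [hχ]; exact bot_le
    · intro v hv
      exact hab χ hχ v hv
  ext v
  exact h1 (Submodule.mem_top)

end weights

section main

variable {K V : Type*} [Field K] [IsAlgClosed K] [CharZero K] [AddCommGroup V] [Module K V]
  [FiniteDimensional K V]

/-- conjugation of weights -/
def cj {Q : Type*} [Group Q] {Z : Subgroup Q} (hn : Z.Normal) (g : Q) (χ : Z → K) : Z → K :=
  fun z => χ ⟨g⁻¹ * (z : Q) * g, by simpa using hn.conj_mem z z.2 g⁻¹⟩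

/-- A finite `l`-group `Q` with a faithful representation of dimension `n` over an algebraically
closed field of characteristic zero cannot be mapped onto an elementary abelian group of order `l^r`
with `r (l-1) > n l - 1`. -/
theorem rank_le {l : ℕ} [hl : Fact l.Prime] {Q : Type*} [Group Q] [Finite Q] (hQ : IsPGroup l Q)
    (ρ : Q →* Module.End K V) (hρ : Function.Injective ρ) {A : Type*} [CommGroup A]
    (hA : ∀ a : A, a ^ l = 1) {r : ℕ} (hr : Nat.card A = l ^ r) (φ : Q →* A)
    (hφ : Function.Surjective φ) : r * (l - 1) ≤ finrank K V * l - 1 := by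
  classical
  have hl1 : 1 < l := hl.out.one_lt
  obtain ⟨Z, hn, hab, hcent⟩ := exists_selfcentral hQ
  have hAfin : Finite A := Finite.of_surjective φ hφ
  set f : Z → Module.End K V := fun z => ρ (z : Q) with hf
  have hN : Nat.card Q ≠ 0 := Nat.card_pos.ne'
  have hpow : ∀ z, f z ^ Nat.card Q = 1 := by
    intro z
    rw [hf]
    show ρ (z : Q) ^ Nat.card Q = 1
    rw [← map_pow, pow_card_eq_one', map_one]
  have hc : ∀ z z', Commute (f z) (f z') := by
    intro z z'
    show ρ (z : Q) * ρ (z' : Q) = ρ (z' : Q) * ρ (z : Q)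
    rw [← map_mul, ← map_mul, hab z z.2 z' z'.2]
  have hWfin : Finite {χ : Z → K // U f χ ≠ ⊥} := finite_W hN hpow hc
  have hWcard := card_W hN hpow hc
  set s : ℕ := Nat.card {χ : Z → K // U f χ ≠ ⊥} with hs
  -- the permutation action
  have hmove : ∀ g : Q, ∀ χ : Z → K, U f χ ≠ ⊥ → U f (cj hn g χ) ≠ ⊥ := by
    intro g χ hχ
    obtain ⟨v, hv, hv0⟩ := Submodule.exists_mem_ne_zero_of_ne_bot hχ
    intro h0
    have h1 : ρ g v ∈ U f (cj hn g χ) := by
      rw [mem_U]
      intro z
      rw [mem_U] at hv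
      have h2 := hv ⟨g⁻¹ * (z : Q) * g, by simpa using hn.conj_mem z z.2 g⁻¹⟩
      have h3 : ρ (z : Q) * ρ g = ρ g * ρ (g⁻¹ * (z : Q) * g) := by
        rw [← map_mul, ← map_mul]
        congr 1
        group
      have h4 : f z (ρ g v) = ρ g (ρ (g⁻¹ * (z : Q) * g) v) := by
        have := congrArg (fun T : Module.End K V => T v) h3
        exact this
      rw [h4]
      have h5 : ρ (g⁻¹ * (z : Q) * g) v = cj hn g χ z • v := h2
      rw [h5, map_smul]
    rw [h0, Submodule.mem_bot] at h1
    have h6 : ρ g⁻¹ (ρ g v) = v := by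
      have : ρ g⁻¹ * ρ g = 1 := by rw [← map_mul, inv_mul_cancel, map_one]
      exact congrArg (fun T : Module.End K V => T v) this
    rw [h1, map_zero] at h6
    exact hv0 h6.symm
  let τ0 : Q →* Function.End {χ : Z → K // U f χ ≠ ⊥} :=
    { toFun := fun g χ => ⟨cj hn g χ.1, hmove g χ.1 χ.2⟩
      map_one' := by
        funext χ
        apply Subtype.ext
        funext z
        refine congrArg χ.1 (Subtype.ext ?_)
        simp
      map_mul' := by
        intro g h
        funext χ
        apply Subtype.ext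
        funext z
        refine congrArg χ.1 (Subtype.ext ?_)
        simp [mul_assoc] }
  let τ : Q →* Equiv.Perm {χ : Z → K // U f χ ≠ ⊥} := MonoidHom.toHomPerm τ0
  have hker : τ.ker ≤ Z := by
    intro g hg
    rw [MonoidHom.mem_ker] at hg
    apply hcent
    intro z hz
    have h1 : ∀ χ, U f χ ≠ ⊥ → cj hn g χ = χ := by
      intro χ hχ
      have := congrArg (fun e : Equiv.Perm {χ : Z → K // U f χ ≠ ⊥} => (e ⟨χ, hχ⟩).1) hg
      exact this
    have h2 : ρ (g⁻¹ * z * g) = ρ z := by
      refine eq_of_weights hN hpow hc ?_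
      intro χ hχ v hv
      rw [mem_U] at hv
      have h3 : ρ (g⁻¹ * z * g) v = cj hn g χ ⟨z, hz⟩ • v :=
        hv ⟨g⁻¹ * z * g, by simpa using hn.conj_mem z hz g⁻¹⟩
      have h4 : ρ z v = χ ⟨z, hz⟩ • v := hv ⟨z, hz⟩
      rw [h3, h4, h1 χ hχ]
    have h3 := hρ h2
    calc g * z = g * (g⁻¹ * z * g) := by rw [h3]
      _ = z * g := by group
  obtain ⟨t, ht⟩ := hQ.index Z
  have htdvd : l ^ t ∣ s.factorial := by
    rw [← ht]
    refine (Subgroup.index_dvd_of_le hker).trans ?_
    rw [Subgroup.index_ker]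
    refine (Subgroup.card_subgroup_dvd_card τ.range).trans ?_
    rw [Nat.card_perm, hs]
  have htle : t ≤ padicValNat l s.factorial :=
    (padicValNat_dvd_iff_le (Nat.factorial_ne_zero s)).1 htdvd
  have hts : t * (l - 1) ≤ s - 1 := by
    rcases Nat.eq_zero_or_pos s with h0 | h0
    · rw [h0] at htle
      simp at htle
      rw [htle, h0]
      simp
    · have h1 := sub_one_mul_padicValNat_factorial_lt_of_ne_zero l h0.ne'
      have h2 : t * (l - 1) ≤ (l - 1) * padicValNat l s.factorial := by
        rw [mul_comm]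
        exact Nat.mul_le_mul_left _ htle
      omega
  -- the image of Z
  have hmc : ∀ a b : Z, a * b = b * a := fun a b => Subtype.ext (hab a a.2 b b.2)
  let _ : CommGroup Z := { (inferInstance : Group Z) with mul_comm := hmc }
  let φ' : Z →* A := φ.comp Z.subtype
  let pw : Z →* Z := powMonoidHom l
  have hle : pw.range ≤ φ'.ker := by
    rintro _ ⟨z, rfl⟩
    rw [MonoidHom.mem_ker]
    show φ ((z ^ l : Z) : Q) = 1
    rw [Subgroup.coe_pow, map_pow, hA]
  have hB : Nat.card φ'.range ∣ pw.range.index := by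
    rw [← Subgroup.index_ker]
    exact Subgroup.index_dvd_of_le hle
  have hidx : pw.range.index = Nat.card pw.ker := by
    have h1 := Subgroup.card_mul_index pw.ker
    have h2 := Subgroup.card_mul_index pw.range
    rw [Subgroup.index_ker] at h1
    have h3 : 0 < Nat.card pw.range := Nat.card_pos
    have h4 : Nat.card pw.range * pw.range.index = Nat.card pw.range * Nat.card pw.ker := by
      rw [h2, ← h1, mul_comm]
    exact Nat.eq_of_mul_eq_mul_left h3 h4
  have hkercard : Nat.card pw.ker ≤ l ^ s := by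
    set R : Finset K := Polynomial.nthRootsFinset l (1 : K) with hR
    have hRcard : R.card ≤ l := by
      rw [hR, Polynomial.nthRootsFinset_def]
      exact (Multiset.toFinset_card_le _).trans (Polynomial.card_nthRoots l 1)
    have hval : ∀ z : pw.ker, ∀ χ : {χ : Z → K // U f χ ≠ ⊥}, χ.1 z.1 ∈ R := by
      rintro ⟨z, hz⟩ ⟨χ, hχ⟩
      rw [hR, Polynomial.mem_nthRootsFinset (by omega)]
      obtain ⟨v, hv, hv0⟩ := Submodule.exists_mem_ne_zero_of_ne_bot hχ
      rw [mem_U] at hv
      have h1 : ∀ k : ℕ, (f z ^ k) v = χ z ^ k • v := by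
        intro k
        induction k with
        | zero => simp
        | succ k ih =>
          rw [pow_succ', Module.End.mul_apply, ih, map_smul, hv z, smul_smul, pow_succ]
      have h2 : f z ^ l = 1 := by
        rw [MonoidHom.mem_ker] at hz
        have h3 : (z : Q) ^ l = 1 := congrArg Subtype.val hz
        show ρ (z : Q) ^ l = 1
        rw [← map_pow, h3, map_one]
      have h3 := h1 l
      rw [h2, Module.End.one_apply] at h3
      have h4 : (χ z ^ l - 1) • v = 0 := by rw [sub_smul, ← h3, one_smul, sub_self]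
      rcases smul_eq_zero.1 h4 with h5 | h5
      · exact sub_eq_zero.1 h5
      · exact absurd h5 hv0
    let g : pw.ker → ({χ : Z → K // U f χ ≠ ⊥} → R) := fun z χ => ⟨χ.1 z.1, hval z χ⟩
    have hg : Function.Injective g := by
      intro z z' hzz
      apply Subtype.ext
      apply Subtype.ext
      apply hρ
      refine eq_of_weights hN hpow hc ?_
      intro χ hχ v hv
      rw [mem_U] at hv
      have h1 : f z.1 v = χ z.1 • v := hv z.1
      have h2 : f z'.1 v = χ z'.1 • v := hv z'.1
      have h3 : χ z.1 = χ z'.1 := congrArg (fun e => ((e ⟨χ, hχ⟩ : R) : K)) hzz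
      show f z.1 v = f z'.1 v
      rw [h1, h2, h3]
    calc Nat.card pw.ker ≤ Nat.card ({χ : Z → K // U f χ ≠ ⊥} → R) :=
          Nat.card_le_card_of_injective g hg
      _ = R.card ^ s := by
          rw [Nat.card_fun, hs, Nat.card_eq_fintype_card, Fintype.card_coe]
      _ ≤ l ^ s := Nat.pow_le_pow_left hRcard _
  have hBcard : Nat.card φ'.range ≤ l ^ s := by
    refine (Nat.le_of_dvd ?_ hB).trans ?_
    · rw [hidx]; exact Nat.card_pos
    · rw [hidx]; exact hkercard
  have hrange : φ'.range = Z.map φ := by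
    rw [MonoidHom.range_comp, Subgroup.range_subtype]
  have hidx2 : φ'.range.index ≤ l ^ t := by
    rw [hrange, ← ht]
    refine Nat.le_of_dvd ?_ (Subgroup.index_map_dvd Z hφ)
    rw [ht]; positivity
  have hfin : l ^ r ≤ l ^ (s + t) := by
    rw [← hr, ← Subgroup.card_mul_index φ'.range, pow_add]
    exact Nat.mul_le_mul hBcard hidx2
  have hrst : r ≤ s + t := (Nat.pow_le_pow_iff_right hl1).1 hfin
  obtain ⟨m, rfl⟩ : ∃ m, l = m + 1 := ⟨l - 1, by omega⟩
  simp only [Nat.add_sub_cancel] at hts ⊢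
  have h1 : r * m ≤ (s + t) * m := Nat.mul_le_mul_right _ hrst
  have h2 : (s + t) * m = s * m + t * m := by ring
  have h3 : s * (m + 1) ≤ finrank K V * (m + 1) := Nat.mul_le_mul_right _ hWcard
  have h4 : s * (m + 1) = s * m + s := by ring
  rcases Nat.eq_zero_or_pos s with h0 | h0
  · have e1 : s * m = 0 := by rw [h0, zero_mul]
    have e2 : t * m = 0 := by omega
    have e3 : r * m ≤ 0 := by omega
    omega
  · omega

end main

end MP89bZ
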