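import Pool.Agent.Lib.MP_89bcae_ag.Zr.Schur

set_option autoImplicit false

/-!
# Lemma Z: a stable subgroup with a small image of the group
-/

namespace MP89bZ

open Finset Polynomial

section fg

variable {l : ℕ} [hl : Fact l.Prime] {H : Type*} [AddCommGroup H] [Module ℤ_[l] H]

theorem summable_pow (c : ℕ → ℤ_[l]) : Summable fun j => (l : ℤ_[l]) ^ j * c j := by
  have h1 : ((l : ℝ)⁻¹) < 1 := inv_lt_one_of_one_lt₀ (by exact_mod_cast hl.out.one_lt)
  refine Summable.of_norm_bounded (g := fun j => ((l : ℝ)⁻¹) ^ j)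
    (summable_geometric_of_lt_one (by positivity) h1) fun j => ?_
  rw [norm_mul, norm_pow, PadicInt.norm_p]
  calc _ ≤ ((l : ℝ)⁻¹) ^ j * 1 := mul_le_mul_of_nonneg_left (PadicInt.norm_le_one _) (by positivity)
    _ = _ := mul_one _

/-- generators modulo `l` generate a separated module -/
theorem gen_of_sep (hsep : ∀ h : H, (∀ n : ℕ, ∃ y, h = ((l : ℤ_[l]) ^ n) • y) → h = 0)
    {k : ℕ} (x : Fin k → H) (hx : ∀ h : H, ∃ c : Fin k → ℤ_[l], ∃ y, h = ∑ i, c i • x i + (l : ℤ_[l]) • y)
    (h : H) : ∃ c : Fin k → ℤ_[l], h = ∑ i, c i • x i := by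
  choose C Y hCY using hx
  let y : ℕ → H := fun n => Nat.rec h (fun _ z => Y z) n
  have hy0 : y 0 = h := rfl
  have hy1 : ∀ n, y (n + 1) = Y (y n) := fun n => rfl
  let T : ℕ → Fin k → ℤ_[l] := fun n i => ∑' j, (l : ℤ_[l]) ^ j * C (y (n + j)) i
  have hT : ∀ n i, T n i = C (y n) i + l * T (n + 1) i := by
    intro n i
    show ∑' j, (l : ℤ_[l]) ^ j * C (y (n + j)) i = _ + l * ∑' j, (l : ℤ_[l]) ^ j * C (y (n + 1 + j)) i
    rw [(summable_pow fun j => C (y (n + j)) i).tsum_eq_zero_add,
      ← (summable_pow fun j => C (y (n + 1 + j)) i).tsum_mul_left]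
    congr 1
    · simp
    · refine tsum_congr fun j => ?_
      rw [pow_succ', mul_assoc, show n + (j + 1) = n + 1 + j by ring]
  let z : ℕ → H := fun n => y n - ∑ i, T n i • x i
  have hz : ∀ n, z n = (l : ℤ_[l]) • z (n + 1) := by
    intro n
    show y n - ∑ i, T n i • x i = (l : ℤ_[l]) • (y (n + 1) - ∑ i, T (n + 1) i • x i)
    have e1 : ∑ i, T n i • x i = ∑ i, C (y n) i • x i + (l : ℤ_[l]) • ∑ i, T (n + 1) i • x i := by
      rw [smul_sum, ← sum_add_distrib]
      refine sum_congr rfl fun i _ => ?_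
      rw [hT n i, add_smul, mul_smul]
    rw [e1, smul_sub, hy1]
    nth_rewrite 1 [hCY (y n)]
    abel
  have hz' : ∀ n, z 0 = ((l : ℤ_[l]) ^ n) • z n := by
    intro n
    induction n with
    | zero => simp
    | succ n ih => rw [ih, hz n, ← mul_smul, ← pow_succ]
  have h0 : z 0 = 0 := hsep _ fun n => ⟨z n, hz' n⟩
  exact ⟨T 0, by rw [← sub_eq_zero]; exact h0⟩

/-- a separated torsion free module of finite rank is finitely generated -/
theorem fg_of_sep (htf : ∀ (a : ℤ_[l]) (h : H), a • h = 0 → a = 0 ∨ h = 0)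
    (hsep : ∀ h : H, (∀ n : ℕ, ∃ y, h = ((l : ℤ_[l]) ^ n) • y) → h = 0)
    (m : ℕ) (hm : ∀ (k : ℕ) (x : Fin k → H), LinearIndependent ℤ_[l] x → k ≤ m) :
    Module.Finite ℤ_[l] H := by
  classical
  let Ind : ∀ k : ℕ, (Fin k → H) → Prop := fun k x =>
    ∀ (c : Fin k → ℤ_[l]) (y : H), ∑ i, c i • x i = (l : ℤ_[l]) • y → ∀ i, (l : ℤ_[l]) ∣ c i
  have hInd : ∀ k (x : Fin k → H), Ind k x → k ≤ m := by
    intro k x hx
    refine hm k x ?_
    rw [Fintype.linearIndependent_iff]
    intro c hc
    -- all coefficients are divisible by all powers of `l`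
    have hdiv : ∀ n : ℕ, ∀ c : Fin k → ℤ_[l], ∑ i, c i • x i = 0 → ∀ i, (l : ℤ_[l]) ^ n ∣ c i := by
      intro n
      induction n with
      | zero => intro c _ i; simp
      | succ n ih =>
        intro c hc i
        have h1 := hx c 0 (by rw [hc, smul_zero])
        choose d hd using h1
        have h2 : ∑ i, d i • x i = 0 := by
          have h3 : (l : ℤ_[l]) • ∑ i, d i • x i = 0 := by
            rw [smul_sum, ← hc]
            refine sum_congr rfl fun i _ => ?_
            rw [hd i, mul_smul]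
          rcases htf _ _ h3 with h4 | h4
          · exact absurd h4 PadicInt.prime_p.ne_zero
          · exact h4
        rw [hd i, pow_succ']
        exact mul_dvd_mul_left _ (ih d h2 i)
    intro i
    by_contra hne
    have h1 : ∀ n : ℕ, n ≤ (c i).valuation := by
      intro n
      have h2 := hdiv n c hc i
      have h3 := (PadicInt.norm_le_pow_iff_mem_span_pow (c i) n).2 (Ideal.mem_span_singleton.2 h2)
      exact (PadicInt.norm_le_pow_iff_le_valuation (c i) hne n).1 h3
    exact absurd (h1 ((c i).valuation + 1)) (by omega)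
  -- a maximal family
  obtain ⟨k, ⟨x, hx⟩, hmax⟩ : ∃ k, (∃ x, Ind k x) ∧ ∀ k', (∃ x, Ind k' x) → k' ≤ k := by
    have hex : ∃ k, ∃ x, Ind k x := ⟨0, Fin.elim0, fun c y _ i => i.elim0⟩
    let k := Nat.findGreatest (fun k => ∃ x, Ind k x) m
    refine ⟨k, ?_, ?_⟩
    · exact Nat.findGreatest_spec (P := fun k => ∃ x, Ind k x) (Nat.zero_le m)
        ⟨Fin.elim0, fun c y _ i => i.elim0⟩
    · intro k' hk'
      obtain ⟨x, hx⟩ := hk'
      exact Nat.le_findGreatest (hInd k' x hx) ⟨x, hx⟩
  have hgen : ∀ h : H, ∃ c : Fin k → ℤ_[l], ∃ y, h = ∑ i, c i • x i + (l : ℤ_[l]) • y := by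
    intro h
    by_contra hno
    have : Ind (k + 1) (Fin.cons h x) := by
      intro c y hc
      rw [Fin.sum_univ_succ] at hc
      simp only [Fin.cons_zero, Fin.cons_succ] at hc
      have h0 : (l : ℤ_[l]) ∣ c 0 := by
        by_contra hnd
        have hu : IsUnit (c 0) := by
          by_contra hnu
          apply hnd
          have h1 : c 0 ∈ IsLocalRing.maximalIdeal ℤ_[l] := hnu
          rw [PadicInt.maximalIdeal_eq_span_p, Ideal.mem_span_singleton] at h1
          exact h1
        obtain ⟨u, hu⟩ := hu.exists_left_inv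
        apply hno
        refine ⟨fun i => -(u * c i.succ), u • y, ?_⟩
        have h1 : h = u • (c 0 • h) := by rw [← mul_smul, hu, one_smul]
        have h2 : c 0 • h = (l : ℤ_[l]) • y - ∑ i : Fin k, c i.succ • x i := by rw [← hc]; abel
        rw [h1, h2, smul_sub, smul_sum]
        simp only [neg_smul, mul_smul, sum_neg_distrib]
        rw [smul_comm u (l : ℤ_[l]) y]
        abel
      obtain ⟨d, hd⟩ := h0
      have h3 := hx (fun i => c i.succ) (y - d • h) (by
        rw [smul_sub, ← hc, hd, mul_smul]; abel)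
      intro i
      refine Fin.cases ⟨d, hd⟩ (fun j => h3 j) i
    have := hmax (k + 1) ⟨_, this⟩
    omega
  refine Module.finite_def.2 ?_
  refine ⟨univ.image x, ?_⟩
  rw [eq_top_iff]
  intro h _
  obtain ⟨c, hc⟩ := gen_of_sep hsep x hgen h
  rw [hc]
  refine Submodule.sum_mem _ fun i _ => Submodule.smul_mem _ _ (Submodule.subset_span ?_)
  simp

end fg

section order

variable {l : ℕ} [hl : Fact l.Prime] {M : Type*} [AddCommGroup M] [Module ℤ_[l] M]
  [Module.Finite ℤ_[l] M] [Module.IsTorsionFree ℤ_[l] M]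

/-- the rank of a lattice with an automorphism of order `l` without invariants -/
theorem finrank_le_gens (σ : Module.End ℤ_[l] M) (hσ : ∑ i ∈ range l, σ ^ i = 0) {r : ℕ}
    (b : Fin r → M) (hb : ∀ m, ∃ c : Fin r → ℤ, ∃ m', m = ∑ i, c i • b i + (σ - 1) m') :
    Module.finrank ℤ_[l] M ≤ r * (l - 1) := by
  classical
  have hspan : Submodule.span ℤ_[l] (Set.range fun p : Fin r × Fin (l - 1) => (σ ^ (p.2 : ℕ)) (b p.1)) = ⊤ := by
    set S := Submodule.span ℤ_[l] (Set.range fun p : Fin r × Fin (l - 1) => (σ ^ (p.2 : ℕ)) (b p.1)) with hS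
    have hmem : ∀ (i : Fin r) (j : ℕ), j < l - 1 → (σ ^ j) (b i) ∈ S := fun i j hj =>
      Submodule.subset_span ⟨(i, ⟨j, hj⟩), rfl⟩
    refine gen_of_mod σ hσ S ?_ ?_
    · intro m hm
      refine Submodule.span_induction ?_ ?_ ?_ ?_ hm
      · rintro _ ⟨⟨i, j⟩, rfl⟩
        dsimp only
        rw [← Module.End.mul_apply, ← pow_succ']
        by_cases hj : (j : ℕ) + 1 < l - 1
        · exact hmem i _ hj
        · have hj1 : (j : ℕ) + 1 = l - 1 := by have := j.2; omega
          rw [hj1]
          have h1 : σ ^ (l - 1) = -∑ i ∈ range (l - 1), σ ^ i := by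
            have h2 : ∑ i ∈ range (l - 1 + 1), σ ^ i = 0 := by
              rw [Nat.sub_add_cancel hl.out.one_le]; exact hσ
            rw [sum_range_succ] at h2
            exact eq_neg_of_add_eq_zero_right h2
          rw [h1, LinearMap.neg_apply, LinearMap.sum_apply]
          exact S.neg_mem (S.sum_mem fun j' hj' => hmem i _ (mem_range.1 hj'))
      · rw [map_zero]; exact S.zero_mem
      · intro x y _ _ hx hy
        rw [map_add]; exact S.add_mem hx hy
      · intro a x _ hx
        rw [map_smul]; exact S.smul_mem a hx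
    · intro m
      obtain ⟨c, m', h⟩ := hb m
      refine ⟨∑ i, c i • b i, ?_, m', h⟩
      refine S.sum_mem fun i _ => ?_
      have h2 := hl.out.two_le
      have h1 := hmem i 0 (by omega)
      rw [pow_zero, Module.End.one_apply] at h1
      exact S.toAddSubgroup.zsmul_mem h1 (c i)
  have h1 := finrank_le_of_span_eq_top hspan
  rw [Fintype.card_prod, Fintype.card_fin, Fintype.card_fin] at h1
  exact h1

/-- the order of a finite group of automorphisms of a lattice -/
theorem order_lattice {Γ : Type*} [Group Γ] [Finite Γ] (ρ : Γ →* Module.End ℤ_[l] M)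
    (hρ : Function.Injective ρ) {v : ℕ} (hv : l ^ v ∣ Nat.card Γ) :
    l ^ v ∣ l ^ (Module.finrank ℤ_[l] M / (l - 1)) * (Module.finrank ℤ_[l] M / (l - 1)).factorial := by
  classical
  obtain ⟨Q, hQ⟩ := Sylow.exists_subgroup_card_pow_prime l hv
  have hQp : IsPGroup l Q := IsPGroup.of_card hQ
  let b := Module.finBasis ℤ_[l] M
  let F : Matrix (Fin (Module.finrank ℤ_[l] M)) (Fin (Module.finrank ℤ_[l] M)) ℤ_[l] →+*
      Matrix (Fin (Module.finrank ℤ_[l] M)) (Fin (Module.finrank ℤ_[l] M)) ℚ_[l] :=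
    (algebraMap ℤ_[l] ℚ_[l]).mapMatrix
  have hF : Function.Injective F := by
    intro A B h
    ext i j
    have := congrFun (congrFun h i) j
    exact IsFractionRing.injective ℤ_[l] ℚ_[l] this
  let F2 : Module.End ℤ_[l] M →+* Matrix (Fin (Module.finrank ℤ_[l] M)) (Fin (Module.finrank ℤ_[l] M)) ℤ_[l] :=
    ((LinearMap.toMatrixAlgEquiv b).toAlgHom).toRingHom
  have hF2 : Function.Injective F2 := (LinearMap.toMatrixAlgEquiv b).injective
  let ρ' : Q →* Matrix (Fin (Module.finrank ℤ_[l] M)) (Fin (Module.finrank ℤ_[l] M)) ℚ_[l] :=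
    (F.comp F2).toMonoidHom.comp (ρ.comp Q.subtype)
  have h1 := schur_mat hQp ρ' (by
    intro x y hxy
    have h2 : F (F2 (ρ x)) = F (F2 (ρ y)) := hxy
    exact Subtype.val_injective (hρ (hF2 (hF h2))))
  rw [hQ] at h1
  exact h1

end order
section lemmaZ

variable {l : ℕ} [hl : Fact l.Prime] {H : Type*} [AddCommGroup H] [Module ℤ_[l] H]

theorem card_zm {l : ℕ} [hl : Fact l.Prime] {N : Type*} [AddCommGroup N] [Module (ZMod l) N]
    [Finite N] : ∃ r, Nat.card N = l ^ r := by
  refine ⟨Module.finrank (ZMod l) N, ?_⟩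
  have h1 := Module.natCard_eq_pow_finrank (K := ZMod l) (V := N)
  rwa [Nat.card_zmod] at h1

theorem card_kill {l : ℕ} [hl : Fact l.Prime] {N : Type*} [AddCommGroup N] [Finite N]
    (hkill : ∀ x : N, l • x = 0) : ∃ r, Nat.card N = l ^ r :=
  @card_zm l hl N _ (AddCommGroup.zmodModule hkill) _

/-- the elements of which a multiple by a power of `l` lies in `P` -/
def sat (l : ℕ) [Fact l.Prime] {H : Type*} [AddCommGroup H] [Module ℤ_[l] H]
    (P : Submodule ℤ_[l] H) : Submodule ℤ_[l] H where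
  carrier := {x | ∃ a : ℕ, ((l : ℤ_[l]) ^ a) • x ∈ P}
  zero_mem' := ⟨0, by rw [smul_zero]; exact P.zero_mem⟩
  add_mem' := by
    rintro x y ⟨a, ha⟩ ⟨b, hb⟩
    refine ⟨a + b, ?_⟩
    rw [smul_add]
    refine P.add_mem ?_ ?_
    · rw [pow_add, mul_comm, mul_smul]; exact P.smul_mem _ ha
    · rw [pow_add, mul_smul]; exact P.smul_mem _ hb
  smul_mem' := by
    rintro c x ⟨a, ha⟩
    exact ⟨a, by rw [smul_comm]; exact P.smul_mem c ha⟩

theorem mem_sat {P : Submodule ℤ_[l] H} {x : H} : x ∈ sat l P ↔ ∃ a : ℕ, ((l : ℤ_[l]) ^ a) • x ∈ P :=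
  Iff.rfl

theorem le_sat (P : Submodule ℤ_[l] H) : P ≤ sat l P := fun x hx => ⟨0, by rw [pow_zero, one_smul]; exact hx⟩

theorem sat_of_smul {P : Submodule ℤ_[l] H} {x : H} (n : ℕ) (h : ((l : ℤ_[l]) ^ n) • x ∈ sat l P) :
    x ∈ sat l P := by
  obtain ⟨a, ha⟩ := h
  exact ⟨a + n, by rw [pow_add, mul_smul]; exact ha⟩

/-- the saturation of a finitely generated submodule is finitely generated -/
theorem sat_finite (htf : ∀ (a : ℤ_[l]) (h : H), a • h = 0 → a = 0 ∨ h = 0)
    (hsep : ∀ h : H, (∀ n : ℕ, ∃ y, h = ((l : ℤ_[l]) ^ n) • y) → h = 0)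
    (T : Set H) (hT : T.Finite) : Module.Finite ℤ_[l] (sat l (Submodule.span ℤ_[l] T)) := by
  classical
  have hTf : Fintype T := hT.fintype
  set P := Submodule.span ℤ_[l] T with hP
  refine fg_of_sep ?_ ?_ (Fintype.card T) ?_
  · intro a h hh
    rcases htf a h (by simpa using congrArg Subtype.val hh) with h1 | h1
    · exact Or.inl h1
    · exact Or.inr (Subtype.ext h1)
  · intro h hh
    refine Subtype.ext (hsep h fun n => ?_)
    obtain ⟨y, hy⟩ := hh n
    exact ⟨y, by simpa using congrArg Subtype.val hy⟩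
  · intro k x hx
    choose a ha using fun i => (x i).2
    -- a common exponent
    let N := ∑ i, a i
    have hN : ∀ i, ((l : ℤ_[l]) ^ N) • (x i : H) ∈ P := by
      intro i
      have h1 : a i ≤ N := single_le_sum (f := a) (fun _ _ => Nat.zero_le _) (mem_univ i)
      obtain ⟨d, hd⟩ := Nat.exists_eq_add_of_le h1
      rw [hd, pow_add, mul_comm, mul_smul]
      exact P.smul_mem _ (ha i)
    have hli : LinearIndependent ℤ_[l] (fun i => ((l : ℤ_[l]) ^ N) • (x i : H)) := by
      rw [Fintype.linearIndependent_iff]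
      intro c hc i
      have h1 : ((l : ℤ_[l]) ^ N) • ∑ i, c i • (x i : H) = 0 := by
        rw [smul_sum, ← hc]
        exact sum_congr rfl fun i _ => smul_comm _ _ _
      have h2 : ∑ i, c i • (x i : H) = 0 := by
        rcases htf _ _ h1 with h3 | h3
        · exact absurd h3 (pow_ne_zero _ PadicInt.prime_p.ne_zero)
        · exact h3
      have h3 : ∑ i, c i • x i = 0 := by
        refine Subtype.ext ?_
        simpa using h2
      exact Fintype.linearIndependent_iff.1 hx c h3 i
    have h4 := linearIndependent_le_span_aux' _ hli T (by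
      rintro _ ⟨i, rfl⟩
      exact hN i)
    rwa [Fintype.card_fin] at h4

/-- **Lemma Z.**  A separated torsion free `ℤ_l`-module with a linear action of a group with finite
orbits, with an endomorphism `s`, `1 + s + .. + s^(l-1) = 0`, commuting with the action: every
non-zero such module gives a stable subgroup `N ≠ 0` of the quotient by `1 - s`, of order `l^r`, on
which the group acts through a group the order of which has `l`-adic valuation at most
`r + v_l (r!)`. -/
theorem lemma_Z_range (htf : ∀ (a : ℤ_[l]) (h : H), a • h = 0 → a = 0 ∨ h = 0)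
    (hsep : ∀ h : H, (∀ n : ℕ, ∃ y, h = ((l : ℤ_[l]) ^ n) • y) → h = 0)
    (s : H →ₗ[ℤ_[l]] H) (hs : ∑ i ∈ range l, s ^ i = 0)
    {G : Type*} [Group G] [DistribMulAction G H]
    (hlin : ∀ (g : G) (a : ℤ_[l]) (h : H), g • (a • h) = a • (g • h))
    (hgs : ∀ (g : G) (h : H), g • s h = s (g • h))
    (horb : ∀ h : H, (MulAction.orbit G h).Finite)
    {M : Type*} [AddCommGroup M] [DistribMulAction G M] (th : H →+ M)
    (hth : ∀ (g : G) (h : H), th (g • h) = g • th h)
    (hker : ∀ h : H, th h = 0 ↔ ∃ y, h = y - s y) [Nontrivial H] :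
    ∃ N : AddSubgroup M, N ≠ ⊥ ∧ (∀ n ∈ N, ∃ h, th h = n) ∧ (∀ g : G, ∀ n ∈ N, g • n ∈ N) ∧
      ∃ r : ℕ, Nat.card N = l ^ r ∧
        padicValNat l (Nat.card (Set.range fun g : G => fun n : N => g • (n : M))) ≤
          r + padicValNat l r.factorial := by
  classical
  obtain ⟨c0, hc0⟩ := exists_ne (0 : H)
  have hl0' : (l : ℤ_[l]) ≠ 0 := PadicInt.prime_p.ne_zero
  -- powers of `s`
  have hsl : s ^ l = 1 := by
    have h1 := mul_geom_sum s l
    rw [hs, mul_zero] at h1
    exact (sub_eq_zero.1 h1.symm)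
  have hgsp : ∀ (i : ℕ) (g : G) (h : H), g • (s ^ i) h = (s ^ i) (g • h) := by
    intro i
    induction i with
    | zero => intro g h; simp
    | succ i ih =>
      intro g h
      rw [pow_succ, Module.End.mul_apply, Module.End.mul_apply, ih, hgs]
  set T : Set H := (fun p : ℕ × H => (s ^ p.1) p.2) '' ((↑(range l) : Set ℕ) ×ˢ MulAction.orbit G c0)
    with hTdef
  have hT : T.Finite := ((range l).finite_toSet.prod (horb c0)).image _
  have hTs : ∀ x ∈ T, s x ∈ T := by
    rintro _ ⟨⟨i, h⟩, ⟨hi, hh⟩, rfl⟩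
    have hi' : i < l := by simpa using hi
    dsimp only
    rw [← Module.End.mul_apply, ← pow_succ']
    by_cases hil : i + 1 < l
    · exact ⟨(i + 1, h), ⟨by simpa using hil, hh⟩, rfl⟩
    · have h1 : i + 1 = l := by omega
      rw [h1, hsl]
      exact ⟨(0, h), ⟨by simpa using hl.out.pos, hh⟩, by simp⟩
  have hTg : ∀ g : G, ∀ x ∈ T, g • x ∈ T := by
    rintro g _ ⟨⟨i, h⟩, ⟨hi, hh⟩, rfl⟩
    refine ⟨(i, g • h), ⟨hi, ?_⟩, ?_⟩
    · obtain ⟨g', rfl⟩ := hh
      exact ⟨g * g', by simp [mul_smul]⟩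
    · exact (hgsp i g h).symm
  have hcT : c0 ∈ T :=
    ⟨(0, c0), ⟨by simpa using hl.out.pos, MulAction.mem_orbit_self c0⟩, by simp⟩
  set P := Submodule.span ℤ_[l] T with hP
  have hPs : ∀ x ∈ P, s x ∈ P := by
    intro x hx
    refine Submodule.span_induction (fun y hy => Submodule.subset_span (hTs y hy)) ?_ ?_ ?_ hx
    · rw [map_zero]; exact P.zero_mem
    · intro x y _ _ h1 h2; rw [map_add]; exact P.add_mem h1 h2
    · intro a x _ h1; rw [map_smul]; exact P.smul_mem a h1
  have hPg : ∀ g : G, ∀ x ∈ P, g • x ∈ P := by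
    intro g x hx
    refine Submodule.span_induction (fun y hy => Submodule.subset_span (hTg g y hy)) ?_ ?_ ?_ hx
    · rw [smul_zero]; exact P.zero_mem
    · intro x y _ _ h1 h2; rw [smul_add]; exact P.add_mem h1 h2
    · intro a x _ h1; rw [hlin]; exact P.smul_mem a h1
  set H1 := sat l P with hH1
  have hHs : ∀ x ∈ H1, s x ∈ H1 := by
    rintro x ⟨a, ha⟩
    exact ⟨a, by rw [← map_smul]; exact hPs _ ha⟩
  have hHg : ∀ g : G, ∀ x ∈ H1, g • x ∈ H1 := by
    rintro g x ⟨a, ha⟩
    exact ⟨a, by rw [← hlin]; exact hPg g _ ha⟩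
  have hcH : c0 ∈ H1 := le_sat P (Submodule.subset_span hcT)
  have hfin : Module.Finite ℤ_[l] H1 := sat_finite htf hsep T hT
  have hntf : Module.IsTorsionFree ℤ_[l] H1 := by
    refine Module.IsTorsionFree.of_smul_eq_zero fun a h hh => ?_
    rcases htf a h (by simpa using congrArg Subtype.val hh) with h1 | h1
    · exact Or.inl h1
    · exact Or.inr (Subtype.ext h1)
  -- the restriction of `s`
  let σ : Module.End ℤ_[l] H1 := s.restrict hHs
  have hσc : ∀ (i : ℕ) (x : H1), (((σ ^ i) x : H1) : H) = (s ^ i) x := by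
    intro i
    induction i with
    | zero => intro x; simp
    | succ i ih =>
      intro x
      rw [pow_succ, Module.End.mul_apply, ih, pow_succ, Module.End.mul_apply]
      rfl
  have hσ : ∑ i ∈ range l, σ ^ i = 0 := by
    ext x
    rw [LinearMap.sum_apply, Submodule.coe_sum]
    simp only [hσc]
    rw [← LinearMap.sum_apply, hs]
    simp
  have hσ1 : ∀ x : H1, (((σ - 1) x : H1) : H) = s x - x := by
    intro x
    rw [LinearMap.sub_apply, Module.End.one_apply, Submodule.coe_sub]
    rfl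
  -- `th` on multiples of `l`
  obtain ⟨τ, hcτ, hτ⟩ := l_mul s hs
  have hlτ : ∀ h : H, (l : ℤ_[l]) • h = s (τ h) - τ h := by
    intro h
    have h3 := congrArg (fun T : Module.End ℤ_[l] H => T h) hτ
    simp only [Module.End.mul_apply, Module.End.natCast_apply] at h3
    rw [Nat.cast_smul_eq_nsmul, h3, LinearMap.sub_apply, Module.End.one_apply]
  have hcτ' : ∀ h : H, s (τ h) = τ (s h) := fun h =>
    congrArg (fun T : Module.End ℤ_[l] H => T h) hcτ.eq
  have hthl : ∀ h : H, th ((l : ℤ_[l]) • h) = 0 := by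
    intro h
    rw [hker]
    exact ⟨-τ h, by rw [hlτ, map_neg]; abel⟩
  have hsinj : ∀ h : H, s h = h → h = 0 := by
    intro h hh
    have h1 : (l : ℤ_[l]) • h = 0 := by rw [hlτ, hcτ', hh, sub_self]
    rcases htf _ _ h1 with h2 | h2
    · exact absurd h2 hl0'
    · exact h2
  have hker1 : ∀ x : H1, th x = 0 → ∃ y : H1, x = (σ - 1) y := by
    intro x hx
    obtain ⟨y, hy⟩ := (hker x).1 hx
    obtain ⟨τ1, hcτ1, hτ1⟩ := l_mul σ hσ
    -- `l • y` lies in `H1`
    have h1 : (l : ℤ_[l]) • y = -(τ1 x : H) := by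
      rw [← sub_eq_zero]
      apply hsinj
      have h3 := congrArg (fun T : Module.End ℤ_[l] H1 => ((T x : H1) : H)) hτ1
      simp only [Module.End.mul_apply, Module.End.natCast_apply] at h3
      rw [hσ1] at h3
      have h4 : ((l • x : H1) : H) = (l : ℤ_[l]) • (x : H) := by
        rw [Nat.cast_smul_eq_nsmul]; rfl
      rw [h4] at h3
      have h5 : s (τ1 x : H) = (l : ℤ_[l]) • (x : H) + (τ1 x : H) := by rw [h3]; abel
      have h6 : s y = y - x := by rw [hy]; abel
      rw [sub_neg_eq_add, map_add, map_smul, h5, h6, smul_sub]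
      abel
    have h2 : y ∈ H1 := by
      refine sat_of_smul 1 ?_
      rw [pow_one, h1]
      exact H1.neg_mem (τ1 x).2
    refine ⟨-⟨y, h2⟩, Subtype.ext ?_⟩
    rw [hσ1, hy]
    simp only [NegMemClass.coe_neg, map_neg]
    abel
  have hker2 : ∀ x : H1, th ((σ - 1) x : H1) = 0 := by
    intro x
    rw [hker]
    exact ⟨-x, by rw [hσ1, map_neg]; abel⟩
  -- the subgroup
  let N : AddSubgroup M := AddSubgroup.map th H1.toAddSubgroup
  have hmemN : ∀ x : H1, th x ∈ N := fun x => ⟨x, x.2, rfl⟩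
  have hkill : ∀ n : N, l • n = 0 := by
    rintro ⟨_, x, hx, rfl⟩
    refine Subtype.ext ?_
    show l • th x = 0
    rw [← map_nsmul, ← Nat.cast_smul_eq_nsmul ℤ_[l]]
    exact hthl x
  have hfinN : Finite N := by
    obtain ⟨k, x, hx⟩ := Module.Finite.exists_fin (R := ℤ_[l]) (M := H1)
    have hex : ∀ n : N, ∃ c : Fin k → Fin l, (n : M) = ∑ i, ((c i : ℕ)) • th (x i) := by
      rintro ⟨_, h, hh, rfl⟩
      have h1 : (⟨h, hh⟩ : H1) ∈ Submodule.span ℤ_[l] (Set.range x) := by rw [hx]; trivial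
      obtain ⟨a, ha⟩ := (Submodule.mem_span_range_iff_exists_fun _).1 h1
      choose c hc hca using fun i => PadicInt.exists_mem_range (a i)
      refine ⟨fun i => ⟨c i, hc i⟩, ?_⟩
      have h2 : h = ∑ i, a i • (x i : H) := by
        have := congrArg Subtype.val ha
        simpa using this.symm
      show th h = ∑ i, c i • th ((x i : H1) : H)
      rw [h2, map_sum]
      refine sum_congr rfl fun i _ => ?_
      have h3 := hca i
      rw [PadicInt.maximalIdeal_eq_span_p, Ideal.mem_span_singleton] at h3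
      obtain ⟨d, hd⟩ := h3
      have h4 : a i • (x i : H) = (c i) • (x i : H) + (l : ℤ_[l]) • (d • (x i : H)) := by
        rw [← Nat.cast_smul_eq_nsmul ℤ_[l] (c i), ← mul_smul, ← hd, ← add_smul]
        congr 1
        ring
      rw [h4, map_add, hthl, add_zero, map_nsmul]
    choose c hc using hex
    refine Finite.of_injective c fun n n' h => Subtype.ext ?_
    rw [hc, hc n', h]
  obtain ⟨r, hr⟩ : ∃ r, Nat.card N = l ^ r := card_kill hkill
  refine ⟨N, ?_, ?_, ?_, r, hr, ?_⟩
  · -- `N` is not zero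
    intro hbot
    have h1 : ∀ x : H1, ∃ y : H1, x = (σ - 1) y := by
      intro x
      refine hker1 x ?_
      have := hmemN x
      rw [hbot] at this
      exact AddSubgroup.mem_bot.1 this
    have h2 : (⟨c0, hcH⟩ : H1) = 0 := by
      refine iInf_pi σ hσ _ fun k => ?_
      induction k with
      | zero => exact ⟨⟨c0, hcH⟩, by simp⟩
      | succ k ih =>
        obtain ⟨m', hm'⟩ := ih
        obtain ⟨y, hy⟩ := h1 m'
        exact ⟨y, by rw [hm', hy, pow_succ, Module.End.mul_apply]⟩
    exact hc0 (congrArg Subtype.val h2)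
  · rintro _ ⟨x, _, rfl⟩
    exact ⟨x, rfl⟩
  · -- `N` is stable
    rintro g _ ⟨x, hx, rfl⟩
    exact ⟨g • x, hHg g x hx, hth g x⟩
  · -- the order
    obtain ⟨B, hB⟩ := gens_kill hr hkill
    choose b hbm hbB using fun i => (B i).2
    have hb : ∀ m : H1, ∃ c : Fin r → ℤ, ∃ m', m = ∑ i, c i • (⟨b i, hbm i⟩ : H1) + (σ - 1) m' := by
      intro m
      obtain ⟨c, hc⟩ := hB ⟨th m, hmemN m⟩
      have h1 : th ((m - ∑ i, c i • (⟨b i, hbm i⟩ : H1) : H1) : H) = 0 := by
        have h2 := congrArg Subtype.val hc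
        rw [AddSubgroup.val_finsetSum] at h2
        rw [Submodule.coe_sub, Submodule.coe_sum, map_sub, map_sum, sub_eq_zero]
        refine h2.trans (sum_congr rfl fun i _ => ?_)
        show c i • (B i : M) = th (c i • b i)
        rw [map_zsmul, hbB]
      obtain ⟨y, hy⟩ := hker1 _ h1
      exact ⟨c, y, by rw [← hy]; abel⟩
    have hrank := finrank_le_gens σ hσ _ hb
    -- the group acting on `H1`
    let φ : G →* Module.End ℤ_[l] H1 :=
      { toFun := fun g =>
          { toFun := fun x => ⟨g • (x : H), hHg g x x.2⟩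
            map_add' := fun x y => Subtype.ext (by simp)
            map_smul' := fun a x => Subtype.ext (by simp [hlin]) }
        map_one' := by ext x; simp
        map_mul' := fun g g' => by ext x; simp [mul_smul] }
    have hφ : ∀ (g : G) (x : H1), ((φ g x : H1) : H) = g • (x : H) := fun g x => rfl
    let ρ : G ⧸ φ.ker →* Module.End ℤ_[l] H1 := QuotientGroup.lift φ.ker φ fun g hg => hg
    have hρ : Function.Injective ρ := by
      intro a a'
      refine QuotientGroup.induction_on a fun g => QuotientGroup.induction_on a' fun g' => ?_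
      intro h
      have h1 : φ g = φ g' := h
      rw [QuotientGroup.eq, MonoidHom.mem_ker, map_mul, ← h1, ← map_mul, inv_mul_cancel, map_one]
    have hfinΓ : Finite (G ⧸ φ.ker) := by
      obtain ⟨k, x, hx⟩ := Module.Finite.exists_fin (R := ℤ_[l]) (M := H1)
      let F : G ⧸ φ.ker → ∀ i : Fin k, MulAction.orbit G ((x i : H1) : H) := fun q i =>
        ⟨q.out • (x i : H), MulAction.mem_orbit _ _⟩
      have : ∀ i : Fin k, Finite (MulAction.orbit G ((x i : H1) : H)) := fun i => (horb _).to_subtype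
      refine Finite.of_injective F fun q q' h => ?_
      have h0 : ∀ i, q.out • ((x i : H1) : H) = q'.out • ((x i : H1) : H) := fun i =>
        congrArg Subtype.val (congrFun h i)
      have h1 : ∀ i, φ q.out (x i) = φ q'.out (x i) := fun i => Subtype.ext (h0 i)
      have h2 : φ q.out = φ q'.out := LinearMap.ext_on_range hx h1
      have h3 : ρ q = ρ q' := by
        rw [← QuotientGroup.out_eq' q, ← QuotientGroup.out_eq' q']
        exact h2
      exact hρ h3
    -- the group acting on `N`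
    let ψ : G →* AddMonoid.End N :=
      { toFun := fun g =>
          { toFun := fun x => ⟨g • (x : M), by
              obtain ⟨_, y, hy, rfl⟩ := x
              exact ⟨g • y, hHg g y hy, hth g y⟩⟩
            map_zero' := Subtype.ext (by simp)
            map_add' := fun x y => Subtype.ext (by simp) }
        map_one' := AddMonoidHom.ext fun x => Subtype.ext (one_smul G (x : M))
        map_mul' := fun g g' => AddMonoidHom.ext fun x => Subtype.ext (mul_smul g g' (x : M)) }
    have hψ : ∀ (g : G) (x : N), ((ψ g x : N) : M) = g • (x : M) := fun g x => rfl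
    have hkk : φ.ker ≤ ψ.ker := by
      intro g hg
      rw [MonoidHom.mem_ker] at hg ⊢
      ext ⟨_, x, hx, rfl⟩
      show g • th x = th x
      rw [← hth]
      have := congrArg Subtype.val (congrArg (fun f : Module.End ℤ_[l] H1 => f ⟨x, hx⟩) hg)
      exact congrArg th this
    have hcardN : Nat.card (Set.range fun g : G => fun n : N => g • (n : M)) = ψ.ker.index := by
      rw [Subgroup.index_eq_card]
      symm
      let f : G ⧸ ψ.ker → Set.range fun g : G => fun n : N => g • (n : M) :=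
        Quotient.lift (fun g => ⟨fun n : N => g • (n : M), g, rfl⟩) (by
          intro g g' h
          have h1 : g⁻¹ * g' ∈ ψ.ker := QuotientGroup.leftRel_apply.1 h
          rw [MonoidHom.mem_ker] at h1
          refine Subtype.ext (funext fun n => ?_)
          have h2 : ψ g' = ψ g := by
            rw [show g' = g * (g⁻¹ * g') by group, map_mul, h1, mul_one]
          show g • (n : M) = g' • (n : M)
          rw [← hψ, ← hψ, h2])
      refine Nat.card_eq_of_bijective f ⟨?_, ?_⟩
      · intro a a'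
        refine QuotientGroup.induction_on a fun g => QuotientGroup.induction_on a' fun g' => ?_
        intro h
        have h1 : (fun n : N => g • (n : M)) = fun n : N => g' • (n : M) := congrArg Subtype.val h
        have h2 : ψ g = ψ g' := by
          ext n
          exact congrFun h1 n
        rw [QuotientGroup.eq, MonoidHom.mem_ker, map_mul, ← h2, ← map_mul, inv_mul_cancel, map_one]
      · rintro ⟨_, g, rfl⟩
        exact ⟨(g : G ⧸ ψ.ker), rfl⟩
    have hdvd : l ^ padicValNat l ψ.ker.index ∣ Nat.card (G ⧸ φ.ker) := by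
      rw [← Subgroup.index_eq_card]
      exact pow_padicValNat_dvd.trans (Subgroup.index_dvd_of_le hkk)
    have h1 := order_lattice ρ hρ hdvd
    have h2 : Module.finrank ℤ_[l] H1 / (l - 1) ≤ r := by
      refine Nat.div_le_of_le_mul ?_
      rw [mul_comm]
      exact hrank
    have h3 : l ^ padicValNat l ψ.ker.index ∣ l ^ r * r.factorial :=
      h1.trans (mul_dvd_mul (pow_dvd_pow _ h2) (Nat.factorial_dvd_factorial h2))
    rw [hcardN]
    have hne : l ^ r * r.factorial ≠ 0 :=
      mul_ne_zero (pow_ne_zero _ hl.out.ne_zero) (Nat.factorial_ne_zero _)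
    have h4 := (padicValNat_dvd_iff_le hne).1 h3
    rwa [padicValNat.mul (pow_ne_zero _ hl.out.ne_zero) (Nat.factorial_ne_zero _),
      padicValNat.prime_pow] at h4

/-- `lemma_Z_range` without the second claim -/
theorem lemma_Z (htf : ∀ (a : ℤ_[l]) (h : H), a • h = 0 → a = 0 ∨ h = 0)
    (hsep : ∀ h : H, (∀ n : ℕ, ∃ y, h = ((l : ℤ_[l]) ^ n) • y) → h = 0)
    (s : H →ₗ[ℤ_[l]] H) (hs : ∑ i ∈ range l, s ^ i = 0)
    {G : Type*} [Group G] [DistribMulAction G H]
    (hlin : ∀ (g : G) (a : ℤ_[l]) (h : H), g • (a • h) = a • (g • h))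
    (hgs : ∀ (g : G) (h : H), g • s h = s (g • h))
    (horb : ∀ h : H, (MulAction.orbit G h).Finite)
    {M : Type*} [AddCommGroup M] [DistribMulAction G M] (th : H →+ M)
    (hth : ∀ (g : G) (h : H), th (g • h) = g • th h)
    (hker : ∀ h : H, th h = 0 ↔ ∃ y, h = y - s y) [Nontrivial H] :
    ∃ N : AddSubgroup M, N ≠ ⊥ ∧ (∀ g : G, ∀ n ∈ N, g • n ∈ N) ∧
      ∃ r : ℕ, Nat.card N = l ^ r ∧
        padicValNat l (Nat.card (Set.range fun g : G => fun n : N => g • (n : M))) ≤
          r + padicValNat l r.factorial := by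
  obtain ⟨N, h1, _, h2, h3⟩ := lemma_Z_range htf hsep s hs hlin hgs horb th hth hker
  exact ⟨N, h1, h2, h3⟩

end lemmaZ

end MP89bZ
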