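import Pool.Agent.Lib.MP_89bcae_ag.Zr.Gens

set_option autoImplicit false

/-!
# Lattices with an automorphism of order `l` without invariants
-/

namespace MP89bZ

open Finset Polynomial

section cyc

variable {l : ℕ} [hl : Fact l.Prime]

/-- the cyclotomic polynomial is irreducible over the `l`-adic numbers -/
theorem irr_cyc : Irreducible (cyclotomic l ℚ_[l]) := by
  have hE := cyclotomic_comp_X_add_one_isEisensteinAt l
  set g : ℤ[X] := (cyclotomic l ℤ).comp (X + 1) with hg
  have hgm : g.Monic := by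
    rw [hg]
    exact (cyclotomic.monic l ℤ).comp (monic_X_add_C 1) (by rw [show (X + 1 : ℤ[X]) = X + C 1 by simp, natDegree_X_add_C]; norm_num)
  set gp : ℤ_[l][X] := g.map (Int.castRingHom ℤ_[l]) with hgp
  have hgpm : gp.Monic := hgm.map _
  have hdeg : gp.natDegree = g.natDegree := hgm.natDegree_map _
  have hlprime : Prime (l : ℤ_[l]) := PadicInt.prime_p
  have hEp : gp.IsEisensteinAt (Ideal.span {(l : ℤ_[l])}) := by
    refine ⟨?_, ?_, ?_⟩
    · rw [hgpm.leadingCoeff]
      intro h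
      exact (Ideal.ne_top_iff_one _).1 ((Ideal.span_singleton_prime hlprime.ne_zero).2 hlprime).ne_top h
    · intro n hn
      rw [hdeg] at hn
      have h1 := hE.mem hn
      rw [Ideal.mem_span_singleton] at h1 ⊢
      rw [hgp, coeff_map]
      obtain ⟨c, hc⟩ := h1
      rw [hc]
      exact ⟨(Int.castRingHom ℤ_[l]) c, by simp⟩
    · intro h
      have h0 : gp.coeff 0 = l := by
        rw [hgp, coeff_map, hg, coeff_zero_eq_eval_zero, eval_comp]
        simp [eval_one_cyclotomic_prime]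
      rw [h0, Ideal.span_singleton_pow, Ideal.mem_span_singleton] at h
      obtain ⟨c, hc⟩ := h
      have h1 : (l : ℤ_[l]) * (1 - l * c) = 0 := by rw [mul_sub, mul_one]; nth_rewrite 1 [hc]; ring
      rcases mul_eq_zero.1 h1 with h2 | h2
      · exact hlprime.ne_zero h2
      · exact hlprime.not_isUnit (IsUnit.of_mul_eq_one c (by linear_combination -h2))
  have hirr : Irreducible gp := hEp.irreducible ((Ideal.span_singleton_prime hlprime.ne_zero).2 hlprime)
    hgpm.isPrimitive (by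
      rw [hdeg, hg, natDegree_comp, natDegree_cyclotomic, show (X + 1 : ℤ[X]) = X + C 1 by simp,
        natDegree_X_add_C, mul_one]
      exact Nat.totient_pos.2 hl.out.pos)
  have hirr2 : Irreducible (gp.map (algebraMap ℤ_[l] ℚ_[l])) :=
    (hgpm.irreducible_iff_irreducible_map_fraction_map (K := ℚ_[l])).1 hirr
  have e1 : gp.map (algebraMap ℤ_[l] ℚ_[l]) = (cyclotomic l ℚ_[l]).comp (X + 1) := by
    rw [hgp, hg, Polynomial.map_map, Polynomial.map_comp, map_cyclotomic]
    simp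
  rw [e1] at hirr2
  have e2 : ((cyclotomic l ℚ_[l]).comp (X + 1)) = algEquivAevalXAddC (1 : ℚ_[l]) (cyclotomic l ℚ_[l]) := by
    rw [algEquivAevalXAddC_apply, comp, aeval_def]
    simp
  rw [e2] at hirr2
  exact (MulEquiv.irreducible_iff (algEquivAevalXAddC (1 : ℚ_[l]))).1 hirr2

end cyc

section lat

variable {l : ℕ} [hl : Fact l.Prime] {M : Type*} [AddCommGroup M] [Module ℤ_[l] M]

/-- `l` is a multiple of `σ - 1` -/
theorem l_mul (σ : Module.End ℤ_[l] M) (hσ : ∑ i ∈ range l, σ ^ i = 0) :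
    ∃ τ : Module.End ℤ_[l] M, Commute σ τ ∧ (l : Module.End ℤ_[l] M) = (σ - 1) * τ := by
  refine ⟨-∑ i ∈ range l, ∑ j ∈ range i, σ ^ j, ?_, ?_⟩
  · refine Commute.neg_right (Commute.sum_right _ _ _ fun i _ => Commute.sum_right _ _ _ fun j _ =>
      (Commute.refl σ).pow_right j)
  · rw [mul_neg, mul_sum]
    have h1 : ∀ i ∈ range l, (σ - 1) * ∑ j ∈ range i, σ ^ j = σ ^ i - 1 :=
      fun i _ => mul_geom_sum σ i
    rw [sum_congr rfl h1, sum_sub_distrib, hσ]
    simp

/-- `(σ - 1)^(l-1)` is a multiple of `l` -/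
theorem pow_l (σ : Module.End ℤ_[l] M) (hσ : ∑ i ∈ range l, σ ^ i = 0) :
    ∃ τ : Module.End ℤ_[l] M, (σ - 1) ^ (l - 1) = (l : Module.End ℤ_[l] M) * τ := by
  -- the identity modulo `l`
  have h1 : ((X - 1 : ℤ[X]) ^ (l - 1) - ∑ i ∈ range l, X ^ i).map (Int.castRingHom (ZMod l)) = 0 := by
    have h2 : (X - 1 : (ZMod l)[X]) * ((X - 1) ^ (l - 1) - ∑ i ∈ range l, X ^ i) = 0 := by
      rw [mul_sub, mul_geom_sum, ← pow_succ', Nat.sub_add_cancel hl.out.one_le, sub_pow_char]
      simp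
    have h3 : (X - 1 : (ZMod l)[X]) ≠ 0 := by
      have := X_sub_C_ne_zero (1 : ZMod l)
      simpa using this
    rcases mul_eq_zero.1 h2 with h4 | h4
    · exact absurd h4 h3
    · rw [← h4]
      simp [Polynomial.map_sub, Polynomial.map_pow, Polynomial.map_sum]
  have h5 : (C (l : ℤ)) ∣ ((X - 1 : ℤ[X]) ^ (l - 1) - ∑ i ∈ range l, X ^ i) := by
    rw [C_dvd_iff_dvd_coeff]
    intro i
    have := congrArg (fun p => coeff p i) h1
    simp only [coeff_map, coeff_zero] at this
    exact (ZMod.intCast_zmod_eq_zero_iff_dvd _ l).1 this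
  obtain ⟨h, hh⟩ := h5
  refine ⟨aeval σ h, ?_⟩
  have h6 := congrArg (aeval σ) hh
  simp only [map_sub, map_pow, aeval_X, map_one, map_sum, map_mul, hσ, sub_zero] at h6
  rw [h6]
  congr 1
  simp

variable [Module.Finite ℤ_[l] M] [Module.IsTorsionFree ℤ_[l] M]

theorem iInf_pow_eq : ∀ m : M, (∀ k : ℕ, ∃ m', m = ((l : ℤ_[l]) ^ k) • m') → m = 0 := by
  intro m hm
  have hle : Ideal.span {(l : ℤ_[l])} ≠ ⊤ :=
    ((Ideal.span_singleton_prime PadicInt.prime_p.ne_zero).2 PadicInt.prime_p).ne_top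
  have h1 := Ideal.iInf_pow_smul_eq_bot_of_isLocalRing (M := M) (Ideal.span {(l : ℤ_[l])}) hle
  have h2 : m ∈ (⨅ i : ℕ, Ideal.span {(l : ℤ_[l])} ^ i • (⊤ : Submodule ℤ_[l] M)) := by
    rw [Submodule.mem_iInf]
    intro k
    obtain ⟨m', hm'⟩ := hm k
    rw [hm', Ideal.span_singleton_pow]
    exact Submodule.smul_mem_smul (Ideal.mem_span_singleton_self _) Submodule.mem_top
  rw [h1, Submodule.mem_bot] at h2
  exact h2

theorem sub_one_injective (σ : Module.End ℤ_[l] M) (hσ : ∑ i ∈ range l, σ ^ i = 0) (m : M)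
    (h : (σ - 1) m = 0) : m = 0 := by
  obtain ⟨τ, hc, hτ⟩ := l_mul σ hσ
  have hc' : (σ - 1) * τ = τ * (σ - 1) := by
    rw [sub_mul, mul_sub, hc.eq, one_mul, mul_one]
  have h1 : (l : ℤ_[l]) • m = 0 := by
    have h2 := congrArg (fun T : Module.End ℤ_[l] M => T m) (hτ.trans hc')
    simp only [Module.End.mul_apply, h, map_zero] at h2
    have h3 : ((l : Module.End ℤ_[l] M)) m = (l : ℤ_[l]) • m := by
      rw [Module.End.natCast_apply, Nat.cast_smul_eq_nsmul]
    rw [← h3]; exact h2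
  rcases smul_eq_zero.1 h1 with h2 | h2
  · exact absurd h2 PadicInt.prime_p.ne_zero
  · exact h2

/-- an element which is divisible by all powers of `σ - 1` vanishes -/
theorem iInf_pi (σ : Module.End ℤ_[l] M) (hσ : ∑ i ∈ range l, σ ^ i = 0) (m : M)
    (h : ∀ k : ℕ, ∃ m', m = ((σ - 1) ^ k) m') : m = 0 := by
  obtain ⟨τ, hτ⟩ := pow_l σ hσ
  refine iInf_pow_eq (l := l) m fun k => ?_
  obtain ⟨m', hm'⟩ := h ((l - 1) * k)
  refine ⟨(τ ^ k) m', ?_⟩
  have h1 : ((σ - 1) ^ ((l - 1) * k)) = (l : Module.End ℤ_[l] M) ^ k * τ ^ k := by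
    rw [pow_mul, hτ, (Nat.cast_commute l τ).mul_pow]
  rw [hm', h1, Module.End.mul_apply, ← Nat.cast_pow, Module.End.natCast_apply]
  rw [← Nat.cast_smul_eq_nsmul ℤ_[l], Nat.cast_pow]

/-- an automorphism of order prime to `l` which is trivial modulo `σ - 1` is trivial -/
theorem eq_one_of_order (σ : Module.End ℤ_[l] M) (hσ : ∑ i ∈ range l, σ ^ i = 0)
    (δ : Module.End ℤ_[l] M) (hc : Commute δ σ) {b : ℕ} (hb : b.Coprime l) (hδ : δ ^ b = 1)
    (h1 : ∀ m, ∃ m', δ m - m = (σ - 1) m') : δ = 1 := by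
  obtain ⟨τ, hcτ, hτ⟩ := l_mul σ hσ
  set S : Module.End ℤ_[l] M := ∑ i ∈ range b, δ ^ i with hS
  have hSc : Commute S (σ - 1) := by
    rw [hS]
    refine Commute.sum_left _ _ _ fun i _ => ?_
    exact Commute.sub_right ((hc.pow_left i)) (Commute.one_right _)
  have hpow : ∀ i : ℕ, ∀ m, ∃ m', (δ ^ i) m - m = (σ - 1) m' := by
    intro i
    induction i with
    | zero => intro m; exact ⟨0, by simp⟩
    | succ i ih =>
      intro m
      obtain ⟨m1, hm1⟩ := ih m
      obtain ⟨m2, hm2⟩ := h1 ((δ ^ i) m)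
      refine ⟨m1 + m2, ?_⟩
      rw [map_add, ← hm1, ← hm2, pow_succ', Module.End.mul_apply]
      abel
  have hSm : ∀ m, ∃ m', S m - (b : ℤ) • m = (σ - 1) m' := by
    intro m
    choose g hg using fun i => hpow i m
    refine ⟨∑ i ∈ range b, g i, ?_⟩
    rw [map_sum, hS, LinearMap.sum_apply]
    have : ∑ i ∈ range b, (σ - 1) (g i) = ∑ i ∈ range b, ((δ ^ i) m - m) :=
      sum_congr rfl fun i _ => (hg i).symm
    rw [this, sum_sub_distrib]
    simp
  -- an element killed by S is divisible by `σ - 1`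
  have hdiv : ∀ m, S m = 0 → ∃ m', m = (σ - 1) m' := by
    intro m hm
    obtain ⟨m1, hm1⟩ := hSm m
    rw [hm, zero_sub] at hm1
    obtain ⟨u, v, huv⟩ : ∃ u v : ℤ, u * b + v * l = 1 :=
      Int.isCoprime_iff_gcd_eq_one.2 (by exact_mod_cast hb)
    refine ⟨-(u • m1) + v • τ m, ?_⟩
    have h2 : (σ - 1) (τ m) = (l : ℤ) • m := by
      have h3 := congrArg (fun T : Module.End ℤ_[l] M => T m) hτ
      simp only [Module.End.mul_apply, Module.End.natCast_apply] at h3
      rw [← h3, natCast_zsmul]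
    rw [map_add, map_neg, map_zsmul, map_zsmul, ← hm1, h2]
    have h4 : (-(u • -((b : ℤ) • m)) + v • (l : ℤ) • m) = (u * b + v * l) • m := by
      rw [add_smul, mul_smul, mul_smul, smul_neg, neg_neg]
    rw [h4, huv, one_smul]
  have hSinj : ∀ m, S m = 0 → m = 0 := by
    intro m hm
    refine iInf_pi σ hσ m ?_
    have : ∀ k : ℕ, ∃ m', S m' = 0 ∧ m = ((σ - 1) ^ k) m' := by
      intro k
      induction k with
      | zero => exact ⟨m, hm, by simp⟩
      | succ k ih =>
        obtain ⟨m1, h1, h2⟩ := ih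
        obtain ⟨m2, h3⟩ := hdiv m1 h1
        refine ⟨m2, ?_, ?_⟩
        · refine sub_one_injective σ hσ _ ?_
          have := congrArg (fun T : Module.End ℤ_[l] M => T m2) hSc.eq
          simp only [Module.End.mul_apply] at this
          rw [← this, ← h3, h1]
        · rw [h2, h3, pow_succ, Module.End.mul_apply]
    intro k
    obtain ⟨m', _, h⟩ := this k
    exact ⟨m', h⟩
  -- conclusion
  have hprod : S * (δ - 1) = 0 := by
    rw [hS, geom_sum_mul, hδ, sub_self]
  ext m
  have h2 : S ((δ - 1) m) = 0 := by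
    have := congrArg (fun T : Module.End ℤ_[l] M => T m) hprod
    exact this
  have h3 := hSinj _ h2
  rw [LinearMap.sub_apply, Module.End.one_apply, sub_eq_zero] at h3
  exact h3

end lat

section gens

theorem gens_zmod {l : ℕ} [hl : Fact l.Prime] {N : Type*} [AddCommGroup N] [Module (ZMod l) N] {n : ℕ}
    (hn : Nat.card N = l ^ n) : ∃ B : Fin n → N, ∀ x, ∃ c : Fin n → ℤ, x = ∑ i, c i • B i := by
  have hfin : Finite N := by
    apply Nat.finite_of_card_ne_zero
    rw [hn]
    exact pow_ne_zero _ hl.out.ne_zero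
  have hfr : Module.finrank (ZMod l) N = n := by
    have h1 := Module.natCard_eq_pow_finrank (K := ZMod l) (V := N)
    rw [hn, Nat.card_zmod] at h1
    exact (Nat.pow_right_injective hl.out.two_le h1).symm
  let B := Module.finBasisOfFinrankEq (ZMod l) N hfr
  refine ⟨B, fun x => ⟨fun i => ((B.repr x i).val : ℤ), ?_⟩⟩
  conv_lhs => rw [← B.sum_repr x]
  refine sum_congr rfl fun i _ => ?_
  rw [natCast_zsmul]
  conv_lhs => rw [← ZMod.natCast_zmod_val (B.repr x i)]
  rw [Nat.cast_smul_eq_nsmul]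
theorem gens_kill {l : ℕ} [hl : Fact l.Prime] {N : Type*} [AddCommGroup N] {n : ℕ} (hn : Nat.card N = l ^ n)
    (hkill : ∀ x : N, l • x = 0) : ∃ B : Fin n → N, ∀ x, ∃ c : Fin n → ℤ, x = ∑ i, c i • B i :=
  @gens_zmod l hl N _ (AddCommGroup.zmodModule hkill) n hn

end gens

section space

open TensorProduct

variable {l : ℕ} [hl : Fact l.Prime] {M : Type*} [AddCommGroup M] [Module ℤ_[l] M]

instance factIrr : Fact (Irreducible (cyclotomic l ℚ_[l])) := ⟨irr_cyc⟩

theorem aeval_cyc (σ : Module.End ℤ_[l] M) (hσ : ∑ i ∈ range l, σ ^ i = 0) :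
    aeval (Module.End.baseChangeHom ℤ_[l] ℚ_[l] M σ) (cyclotomic l ℚ_[l]) = 0 := by
  rw [cyclotomic_prime, map_sum]
  simp only [map_pow, aeval_X]
  simp only [← map_pow]
  rw [← map_sum, hσ, map_zero]

/-- the action of the cyclotomic field -/
noncomputable def actL (σ : Module.End ℤ_[l] M) (hσ : ∑ i ∈ range l, σ ^ i = 0) :
    AdjoinRoot (cyclotomic l ℚ_[l]) →+* Module.End ℚ_[l] (ℚ_[l] ⊗[ℤ_[l]] M) :=
  Ideal.Quotient.lift (Ideal.span {cyclotomic l ℚ_[l]})
    (aeval (R := ℚ_[l]) (Module.End.baseChangeHom ℤ_[l] ℚ_[l] M σ)).toRingHom (by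
      intro a ha
      obtain ⟨b, rfl⟩ := Ideal.mem_span_singleton.1 ha
      show aeval _ (cyclotomic l ℚ_[l] * b) = 0
      rw [map_mul, aeval_cyc σ hσ, zero_mul])

theorem actL_mk (σ : Module.End ℤ_[l] M) (hσ : ∑ i ∈ range l, σ ^ i = 0) (p : ℚ_[l][X]) :
    actL σ hσ (AdjoinRoot.mk _ p) = aeval (Module.End.baseChangeHom ℤ_[l] ℚ_[l] M σ) p := rfl

variable [Module.Finite ℤ_[l] M] [Module.IsTorsionFree ℤ_[l] M]

/-- generators modulo `σ - 1` generate over `ℤ_l[σ]` -/
theorem gen_of_mod (σ : Module.End ℤ_[l] M) (hσ : ∑ i ∈ range l, σ ^ i = 0)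
    (M1 : Submodule ℤ_[l] M) (hst : ∀ m ∈ M1, σ m ∈ M1)
    (h : ∀ m, ∃ m1 ∈ M1, ∃ m', m = m1 + (σ - 1) m') : M1 = ⊤ := by
  obtain ⟨τ, hτ⟩ := pow_l σ hσ
  have hst1 : ∀ m ∈ M1, (σ - 1) m ∈ M1 := fun m hm => by
    rw [LinearMap.sub_apply, Module.End.one_apply]
    exact M1.sub_mem (hst m hm) hm
  have hst2 : ∀ k : ℕ, ∀ m ∈ M1, ((σ - 1) ^ k) m ∈ M1 := by
    intro k
    induction k with
    | zero => intro m hm; simpa using hm
    | succ k ih =>
      intro m hm
      rw [pow_succ', Module.End.mul_apply]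
      exact hst1 _ (ih m hm)
  have hk : ∀ k : ℕ, ∀ m, ∃ m1 ∈ M1, ∃ m', m = m1 + ((σ - 1) ^ k) m' := by
    intro k
    induction k with
    | zero => intro m; exact ⟨0, M1.zero_mem, m, by simp⟩
    | succ k ih =>
      intro m
      obtain ⟨m1, h1, m', h2⟩ := ih m
      obtain ⟨m2, h3, m'', h4⟩ := h m'
      refine ⟨m1 + ((σ - 1) ^ k) m2, M1.add_mem h1 (hst2 k m2 h3), m'', ?_⟩
      rw [h2, h4, map_add, pow_succ, Module.End.mul_apply]
      abel
  rw [eq_top_iff]
  refine Submodule.le_of_le_smul_of_le_jacobson_bot (I := Ideal.span {(l : ℤ_[l])})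
    Module.Finite.fg_top ?_ ?_
  · rw [IsLocalRing.jacobson_eq_maximalIdeal ⊥ bot_ne_top, PadicInt.maximalIdeal_eq_span_p]
  · intro m _
    obtain ⟨m1, h1, m', h2⟩ := hk (l - 1) m
    rw [h2]
    refine Submodule.add_mem_sup h1 ?_
    have h3 : ((σ - 1) ^ (l - 1)) m' = (l : ℤ_[l]) • τ m' := by
      rw [hτ, Module.End.mul_apply, Module.End.natCast_apply, Nat.cast_smul_eq_nsmul]
    rw [h3]
    exact Submodule.smul_mem_smul (Ideal.mem_span_singleton_self _) Submodule.mem_top

/-- `M / (σ - 1)` is generated by `n` elements if it has `l^n` elements -/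
theorem exists_gens (σ : Module.End ℤ_[l] M) (hσ : ∑ i ∈ range l, σ ^ i = 0) {n : ℕ}
    (hn : Nat.card (M ⧸ LinearMap.range (σ - 1)) = l ^ n) :
    ∃ b : Fin n → M, ∀ m, ∃ c : Fin n → ℤ, ∃ m', m = ∑ i, c i • b i + (σ - 1) m' := by
  obtain ⟨τ, hcτ, hτ⟩ := l_mul σ hσ
  have hkill : ∀ x : M ⧸ LinearMap.range (σ - 1), l • x = 0 := by
    intro x
    obtain ⟨m, rfl⟩ := Submodule.mkQ_surjective _ x
    rw [← map_nsmul]
    rw [Submodule.mkQ_apply, Submodule.Quotient.mk_eq_zero]
    refine ⟨τ m, ?_⟩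
    have h3 := congrArg (fun T : Module.End ℤ_[l] M => T m) hτ
    simp only [Module.End.mul_apply, Module.End.natCast_apply] at h3
    exact h3.symm
  obtain ⟨B, hB⟩ := gens_kill hn hkill
  choose b hb using fun i => Submodule.mkQ_surjective (LinearMap.range (σ - 1)) (B i)
  refine ⟨b, fun m => ?_⟩
  obtain ⟨c, hc⟩ := hB ((LinearMap.range (σ - 1)).mkQ m)
  refine ⟨c, ?_⟩
  have h3 : (LinearMap.range (σ - 1)).mkQ (m - ∑ i, c i • b i) = 0 := by
    rw [map_sub, map_sum, hc, sub_eq_zero]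
    refine sum_congr rfl fun i _ => ?_
    rw [map_zsmul, hb]
  rw [Submodule.mkQ_apply, Submodule.Quotient.mk_eq_zero] at h3
  obtain ⟨m', hm'⟩ := h3
  exact ⟨m', by rw [hm']; abel⟩

end space

section final

open TensorProduct

universe u

variable {l : ℕ} [hl : Fact l.Prime] {M : Type u} [AddCommGroup M] [Module ℤ_[l] M]
  [Module.Finite ℤ_[l] M] [Module.IsTorsionFree ℤ_[l] M]

/-- The lattice `M` as a lattice in a vector space of dimension at most `n` over an algebraically
closed field of characteristic zero. -/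
theorem exists_space (σ : Module.End ℤ_[l] M) (hσ : ∑ i ∈ range l, σ ^ i = 0) {n : ℕ}
    (hn : Nat.card (M ⧸ LinearMap.range (σ - 1)) = l ^ n) :
    ∃ (K : Type) (_ : Field K) (_ : IsAlgClosed K) (_ : CharZero K) (V : Type u)
      (_ : AddCommGroup V) (_ : Module K V) (_ : FiniteDimensional K V),
      Module.finrank K V ≤ n ∧
      ∃ F : Submonoid.centralizer ({σ} : Set (Module.End ℤ_[l] M)) →* Module.End K V,
        Function.Injective F := by
  classical
  -- the field
  let L := AdjoinRoot (cyclotomic l ℚ_[l])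
  have hL0 : CharZero L := charZero_of_injective_algebraMap (algebraMap ℚ_[l] L).injective
  have hflat : Module.Flat ℤ_[l] M := inferInstance
  let W := ℚ_[l] ⊗[ℤ_[l]] M
  let modL : Module L W := Module.compHom W (actL σ hσ)
  have hsmul : ∀ (a : L) (w : W), a • w = (actL σ hσ a) w := fun _ _ => rfl
  have hmkC : ∀ (q : ℚ_[l]) (w : W), (AdjoinRoot.mk (cyclotomic l ℚ_[l]) (C q)) • w = q • w := by
    intro q w
    rw [hsmul, actL_mk, aeval_C]
    rfl
  have hroot : ∀ (w : W), (AdjoinRoot.mk (cyclotomic l ℚ_[l]) X) • w =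
      (Module.End.baseChangeHom ℤ_[l] ℚ_[l] M σ) w := by
    intro w
    rw [hsmul, actL_mk, aeval_X]
  -- generators
  obtain ⟨b, hb⟩ := exists_gens σ hσ hn
  have hspan : Submodule.span L (Set.range fun i : Fin n => ((1 : ℚ_[l]) ⊗ₜ[ℤ_[l]] b i : W)) = ⊤ := by
    set S := Submodule.span L (Set.range fun i : Fin n => ((1 : ℚ_[l]) ⊗ₜ[ℤ_[l]] b i : W)) with hS
    have hQ : ∀ (q : ℚ_[l]) (w : W), w ∈ S → q • w ∈ S := fun q w hw => by
      rw [← hmkC]; exact S.smul_mem _ hw
    let M1 : Submodule ℤ_[l] M :=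
      { carrier := {m | ((1 : ℚ_[l]) ⊗ₜ[ℤ_[l]] m : W) ∈ S}
        add_mem' := by
          intro m m' h h'
          show ((1 : ℚ_[l]) ⊗ₜ[ℤ_[l]] (m + m') : W) ∈ S
          rw [TensorProduct.tmul_add]
          exact S.add_mem h h'
        zero_mem' := by
          show ((1 : ℚ_[l]) ⊗ₜ[ℤ_[l]] (0 : M) : W) ∈ S
          rw [TensorProduct.tmul_zero]
          exact S.zero_mem
        smul_mem' := by
          intro c m h
          show ((1 : ℚ_[l]) ⊗ₜ[ℤ_[l]] (c • m) : W) ∈ S
          have e : ((1 : ℚ_[l]) ⊗ₜ[ℤ_[l]] (c • m) : W) =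
              (algebraMap ℤ_[l] ℚ_[l] c) • ((1 : ℚ_[l]) ⊗ₜ[ℤ_[l]] m : W) := by
            rw [TensorProduct.smul_tmul', smul_eq_mul, mul_one, ← TensorProduct.smul_tmul,
              Algebra.smul_def, mul_one]
          rw [e]
          exact hQ _ _ h }
    have hM1 : M1 = ⊤ := by
      refine gen_of_mod σ hσ M1 ?_ ?_
      · intro m hm
        show ((1 : ℚ_[l]) ⊗ₜ[ℤ_[l]] (σ m) : W) ∈ S
        have e : ((1 : ℚ_[l]) ⊗ₜ[ℤ_[l]] (σ m) : W) =
            (AdjoinRoot.mk (cyclotomic l ℚ_[l]) X) • ((1 : ℚ_[l]) ⊗ₜ[ℤ_[l]] m : W) := by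
          rw [hroot]
          rfl
        rw [e]
        exact S.smul_mem _ hm
      · intro m
        obtain ⟨c, m', h⟩ := hb m
        refine ⟨∑ i, c i • b i, ?_, m', h⟩
        refine sum_mem fun i _ => ?_
        refine zsmul_mem (S := Submodule ℤ_[l] M) ?_ _
        exact Submodule.subset_span ⟨i, rfl⟩
    rw [eq_top_iff]
    intro w _
    induction w using TensorProduct.induction_on with
    | zero => exact S.zero_mem
    | add x y hx hy => exact S.add_mem (hx trivial) (hy trivial)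
    | tmul q m =>
      have hm : m ∈ M1 := by rw [hM1]; exact Submodule.mem_top
      have e : (q ⊗ₜ[ℤ_[l]] m : W) = q • ((1 : ℚ_[l]) ⊗ₜ[ℤ_[l]] m : W) := by
        rw [TensorProduct.smul_tmul', smul_eq_mul, mul_one]
      rw [e]
      exact hQ _ _ hm
  have hfinL : Module.Finite L W := by
    refine ⟨⟨Finset.univ.image (fun i : Fin n => ((1 : ℚ_[l]) ⊗ₜ[ℤ_[l]] b i : W)), ?_⟩⟩
    rw [Finset.coe_image, Finset.coe_univ, Set.image_univ, hspan]
  have hfr : Module.finrank L W ≤ n := by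
    have := finrank_le_of_span_eq_top hspan
    simpa using this
  -- the algebraic closure
  let K := AlgebraicClosure L
  have hK0 : CharZero K := charZero_of_injective_algebraMap (algebraMap L K).injective
  refine ⟨K, inferInstance, inferInstance, hK0, K ⊗[L] W, inferInstance, inferInstance,
    inferInstance, ?_, ?_⟩
  · rw [Module.finrank_baseChange]
    exact hfr
  -- the homomorphism
  have hcomm : ∀ f : Submonoid.centralizer ({σ} : Set (Module.End ℤ_[l] M)), ∀ (a : L) (w : W),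
      (Module.End.baseChangeHom ℤ_[l] ℚ_[l] M (f : Module.End ℤ_[l] M)) (a • w) =
        a • (Module.End.baseChangeHom ℤ_[l] ℚ_[l] M (f : Module.End ℤ_[l] M)) w := by
    intro f a w
    obtain ⟨p, rfl⟩ := AdjoinRoot.mk_surjective a
    rw [hsmul, hsmul, actL_mk]
    have h1 : Commute (Module.End.baseChangeHom ℤ_[l] ℚ_[l] M (f : Module.End ℤ_[l] M))
        (Module.End.baseChangeHom ℤ_[l] ℚ_[l] M σ) := by
      have h2 : σ * (f : Module.End ℤ_[l] M) = (f : Module.End ℤ_[l] M) * σ :=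
        Submonoid.mem_centralizer_iff.1 f.2 σ rfl
      show _ * _ = _ * _
      rw [← map_mul, ← map_mul, h2]
    have h3 : Commute (Module.End.baseChangeHom ℤ_[l] ℚ_[l] M (f : Module.End ℤ_[l] M))
        (aeval (Module.End.baseChangeHom ℤ_[l] ℚ_[l] M σ) p) := by
      induction p using Polynomial.induction_on' with
      | add p q hp hq => rw [map_add]; exact hp.add_right hq
      | monomial k c =>
        rw [aeval_monomial]
        exact (Algebra.commute_algebraMap_right c _).mul_right (h1.pow_right k)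
    exact congrArg (fun T : Module.End ℚ_[l] W => T w) h3.eq
  let F1 : Submonoid.centralizer ({σ} : Set (Module.End ℤ_[l] M)) →* Module.End L W :=
    { toFun := fun f =>
        { toFun := fun w => (Module.End.baseChangeHom ℤ_[l] ℚ_[l] M (f : Module.End ℤ_[l] M)) w
          map_add' := fun x y => map_add _ x y
          map_smul' := fun a w => hcomm f a w }
      map_one' := by
        ext w
        show (Module.End.baseChangeHom ℤ_[l] ℚ_[l] M (1 : Module.End ℤ_[l] M)) w = w
        rw [map_one]; rfl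
      map_mul' := by
        intro f g
        ext w
        show (Module.End.baseChangeHom ℤ_[l] ℚ_[l] M ((f : Module.End ℤ_[l] M) * g)) w = _
        rw [map_mul]; rfl }
  have hF1 : Function.Injective F1 := by
    intro f g hfg
    apply Subtype.ext
    have h1 : Function.Injective (LinearMap.baseChangeHom ℤ_[l] ℚ_[l] M M) :=
      LinearMap.baseChangeHom_injective ℤ_[l] M ℚ_[l]
    apply h1
    refine LinearMap.ext fun w => ?_
    exact congrArg (fun T : Module.End L W => T w) hfg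
  refine ⟨((Module.End.baseChangeHom L K W : Module.End L W →ₐ[L] _) : Module.End L W →* _).comp F1, ?_⟩
  intro f g hfg
  apply hF1
  have h1 : Function.Injective (LinearMap.baseChangeHom L K W W) :=
    LinearMap.baseChangeHom_injective L W K
  exact h1 hfg

/-- **Lattice bound.**  `M` a finite free `ℤ_l`-module with `1 + σ + ... + σ^(l-1) = 0`, `Q` a finite
group which acts faithfully on `M` and commutes with `σ`, `φ : Q → A` a surjection onto an elementary
abelian group of order `l^r` whose kernel acts trivially on `M / (σ - 1)`, a group of order `l^n`.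
Then `r (l - 1) ≤ n l - 1`. -/
theorem lattice_bound (σ : Module.End ℤ_[l] M) (hσ : ∑ i ∈ range l, σ ^ i = 0) {n : ℕ}
    (hn : Nat.card (M ⧸ LinearMap.range (σ - 1)) = l ^ n) {Q : Type*} [Group Q] [Finite Q]
    (ρ : Q →* Module.End ℤ_[l] M) (hρ : Function.Injective ρ) (hc : ∀ q, Commute (ρ q) σ)
    {A : Type*} [CommGroup A] (hA : ∀ a : A, a ^ l = 1) {r : ℕ} (hr : Nat.card A = l ^ r)
    (φ : Q →* A) (hφ : Function.Surjective φ)
    (hker : ∀ q, φ q = 1 → ∀ m, ∃ m', ρ q m - m = (σ - 1) m') :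
    r * (l - 1) ≤ n * l - 1 := by
  have hQ : IsPGroup l Q := by
    intro q
    obtain ⟨a, b, hb, hab⟩ := Nat.exists_eq_pow_mul_and_not_dvd (n := orderOf q)
      (orderOf_pos q).ne' l hl.out.ne_one
    refine ⟨a + 1, ?_⟩
    apply hρ
    rw [map_one]
    refine eq_one_of_order σ hσ (ρ (q ^ l ^ (a + 1))) (hc _) (b := b)
      ((Nat.Prime.coprime_iff_not_dvd hl.out).2 hb).symm ?_ ?_
    · rw [← map_pow, ← pow_mul]
      have : q ^ (l ^ (a + 1) * b) = 1 := by
        rw [pow_succ, mul_assoc, mul_comm l b, ← mul_assoc, ← hab, pow_mul, pow_orderOf_eq_one,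
          one_pow]
      rw [this, map_one]
    · refine hker _ ?_
      rw [map_pow, pow_succ, pow_mul, hA]
  obtain ⟨K, _, _, _, V, _, _, _, hfr, F, hF⟩ := exists_space σ hσ hn
  let ρ' : Q →* Submonoid.centralizer ({σ} : Set (Module.End ℤ_[l] M)) :=
    ρ.codRestrict _ fun q => by
      rw [Submonoid.mem_centralizer_iff]
      rintro _ rfl
      exact (hc q).eq.symm
  have hρ' : Function.Injective ρ' := by
    intro x y hxy
    exact hρ (congrArg Subtype.val hxy)
  have h1 := rank_le (K := K) (V := V) hQ (F.comp ρ') (hF.comp hρ') hA hr φ hφ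
  have h2 : Module.finrank K V * l ≤ n * l := Nat.mul_le_mul_right l hfr
  omega

end final

end MP89bZ
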