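import Pool.Agent.Lib.MP_89bcae_ag.Zr.Lat

set_option autoImplicit false

/-!
# The order of finite `l`-groups of `l`-adic matrices (Minkowski, Schur)
-/

namespace MP89bZ

open Finset Polynomial

section cyc2

variable {l : ℕ} [hl : Fact l.Prime]

/-- the cyclotomic polynomials of `l`-power order are irreducible over the `l`-adic numbers -/
theorem irr_cyc_pow (k : ℕ) : Irreducible (cyclotomic (l ^ (k + 1)) ℚ_[l]) := by
  have hE := cyclotomic_prime_pow_comp_X_add_one_isEisensteinAt l k
  set g : ℤ[X] := (cyclotomic (l ^ (k + 1)) ℤ).comp (X + 1) with hg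
  have hgm : g.Monic := by
    rw [hg]
    exact (cyclotomic.monic _ ℤ).comp (monic_X_add_C 1) (by
      rw [show (X + 1 : ℤ[X]) = X + C 1 by simp, natDegree_X_add_C]; norm_num)
  set gp : ℤ_[l][X] := g.map (Int.castRingHom ℤ_[l]) with hgp
  have hgpm : gp.Monic := hgm.map _
  have hdeg : gp.natDegree = g.natDegree := hgm.natDegree_map _
  have hlprime : Prime (l : ℤ_[l]) := PadicInt.prime_p
  have hEp : gp.IsEisensteinAt (Ideal.span {(l : ℤ_[l])}) := by
    refine ⟨?_, ?_, ?_⟩
    · rw [hgpm.leadingCoeff]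
      intro h
      exact (Ideal.ne_top_iff_one _).1 ((Ideal.span_singleton_prime hlprime.ne_zero).2 hlprime).ne_top h
    · intro n hn
      rw [hdeg] at hn
      have h1 := hE.mem hn
      rw [Ideal.mem_span_singleton] at h1 ⊢
      rw [hgp, coeff_map]
      obtain ⟨c, hc⟩ := h1
      rw [hc]
      exact ⟨(Int.castRingHom ℤ_[l]) c, by simp⟩
    · intro h
      have h0 : gp.coeff 0 = l := by
        rw [hgp, coeff_map, hg, coeff_zero_eq_eval_zero, eval_comp]
        simp [eval_one_cyclotomic_prime_pow]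
      rw [h0, Ideal.span_singleton_pow, Ideal.mem_span_singleton] at h
      obtain ⟨c, hc⟩ := h
      have h1 : (l : ℤ_[l]) * (1 - l * c) = 0 := by rw [mul_sub, mul_one]; nth_rewrite 1 [hc]; ring
      rcases mul_eq_zero.1 h1 with h2 | h2
      · exact hlprime.ne_zero h2
      · exact hlprime.not_isUnit (IsUnit.of_mul_eq_one c (by linear_combination -h2))
  have hirr : Irreducible gp := hEp.irreducible ((Ideal.span_singleton_prime hlprime.ne_zero).2 hlprime)
    hgpm.isPrimitive (by
      rw [hdeg, hg, natDegree_comp, natDegree_cyclotomic, show (X + 1 : ℤ[X]) = X + C 1 by simp,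
        natDegree_X_add_C, mul_one]
      exact Nat.totient_pos.2 (pow_pos hl.out.pos _))
  have hirr2 : Irreducible (gp.map (algebraMap ℤ_[l] ℚ_[l])) :=
    (hgpm.irreducible_iff_irreducible_map_fraction_map (K := ℚ_[l])).1 hirr
  have e1 : gp.map (algebraMap ℤ_[l] ℚ_[l]) = (cyclotomic (l ^ (k + 1)) ℚ_[l]).comp (X + 1) := by
    rw [hgp, hg, Polynomial.map_map, Polynomial.map_comp, map_cyclotomic]
    simp
  rw [e1] at hirr2
  have e2 : ((cyclotomic (l ^ (k + 1)) ℚ_[l]).comp (X + 1)) =
      algEquivAevalXAddC (1 : ℚ_[l]) (cyclotomic (l ^ (k + 1)) ℚ_[l]) := by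
    rw [algEquivAevalXAddC_apply, comp, aeval_def]
    simp
  rw [e2] at hirr2
  exact (MulEquiv.irreducible_iff (algEquivAevalXAddC (1 : ℚ_[l]))).1 hirr2

/-- the polynomials that occur: degree `d`, trace `d - l j` with `(l-1) j ≤ d` -/
def Good (l : ℕ) [Fact l.Prime] (q : ℚ_[l][X]) (j : ℕ) : Prop :=
  q.Monic ∧ -q.nextCoeff = (q.natDegree : ℚ_[l]) - l * j ∧ (l - 1) * j ≤ q.natDegree ∧
    (j = 0 → q = (X - C 1) ^ q.natDegree)

theorem good_one : Good l 1 0 := by
  refine ⟨monic_one, ?_, ?_, ?_⟩
  · rw [nextCoeff]; simp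
  · simp
  · intro _; simp

theorem good_mul {q q' : ℚ_[l][X]} {j j' : ℕ} (h : Good l q j) (h' : Good l q' j') :
    Good l (q * q') (j + j') := by
  obtain ⟨a1, a2, a3, a4⟩ := h
  obtain ⟨b1, b2, b3, b4⟩ := h'
  have hd : (q * q').natDegree = q.natDegree + q'.natDegree := a1.natDegree_mul b1
  refine ⟨a1.mul b1, ?_, ?_, ?_⟩
  · rw [a1.nextCoeff_mul b1, hd]
    push_cast
    linear_combination a2 + b2
  · rw [hd, mul_add]; omega
  · intro h0
    have e1 : j = 0 := by omega
    have e2 : j' = 0 := by omega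
    rw [hd, pow_add, ← a4 e1, ← b4 e2]

theorem good_cyc (k : ℕ) : ∃ j, Good l (cyclotomic (l ^ k) ℚ_[l]) j := by
  have hl2 := hl.out.two_le
  cases k with
  | zero =>
    refine ⟨0, ?_⟩
    rw [pow_zero, cyclotomic_one, ← C_1]
    refine ⟨monic_X_sub_C 1, ?_, ?_, ?_⟩
    · rw [nextCoeff_X_sub_C, natDegree_X_sub_C]; simp
    · simp
    · intro _; rw [natDegree_X_sub_C, pow_one]
  | succ k =>
    have hm : (cyclotomic (l ^ (k + 1)) ℚ_[l]).Monic := cyclotomic.monic _ _
    have hdeg : (cyclotomic (l ^ (k + 1)) ℚ_[l]).natDegree = l ^ k * (l - 1) := by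
      rw [natDegree_cyclotomic, Nat.totient_prime_pow_succ hl.out]
    have hpos : 0 < l ^ k * (l - 1) := Nat.mul_pos (pow_pos hl.out.pos _) (by omega)
    have hnc : (cyclotomic (l ^ (k + 1)) ℚ_[l]).nextCoeff =
        (cyclotomic (l ^ (k + 1)) ℚ_[l]).coeff (l ^ k * (l - 1) - 1) := by
      rw [nextCoeff_of_natDegree_pos (by rw [hdeg]; exact hpos), hdeg]
    have hco : ∀ N : ℕ, (cyclotomic (l ^ (k + 1)) ℚ_[l]).coeff N =
        ∑ i ∈ range l, if N = l ^ k * i then 1 else 0 := by
      intro N
      rw [cyclotomic_prime_pow_eq_geom_sum hl.out, finsetSum_coeff]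
      refine sum_congr rfl fun i _ => ?_
      rw [← pow_mul, coeff_X_pow]
    cases k with
    | zero =>
      refine ⟨1, hm, ?_, ?_, ?_⟩
      · rw [hnc, hco, hdeg]
        have : ∑ i ∈ range l, (if l ^ 0 * (l - 1) - 1 = l ^ 0 * i then (1 : ℚ_[l]) else 0) = 1 := by
          rw [sum_eq_single (l - 2)]
          · rw [if_pos]; rw [pow_zero, one_mul, one_mul]; omega
          · intro i _ hi
            rw [if_neg]
            rw [pow_zero, one_mul, one_mul]; omega
          · intro h
            exact absurd (mem_range.2 (by omega)) h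
        rw [this]
        push_cast [Nat.cast_sub hl.out.one_le]
        ring
      · rw [hdeg]; simp
      · intro h; exact absurd h one_ne_zero
    | succ k =>
      refine ⟨l ^ k * (l - 1), hm, ?_, ?_, ?_⟩
      · rw [hnc, hco, hdeg]
        have : ∑ i ∈ range l, (if l ^ (k + 1) * (l - 1) - 1 = l ^ (k + 1) * i then (1 : ℚ_[l]) else 0) = 0 := by
          refine sum_eq_zero fun i _ => ?_
          rw [if_neg]
          intro h
          have h1 : l ^ (k + 1) * (l - 1) = l ^ (k + 1) * i + 1 := by omega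
          have h2 : l ∣ l ^ (k + 1) * i + 1 := by
            rw [← h1, pow_succ]
            exact ⟨l ^ k * (l - 1), by ring⟩
          have h3 : l ∣ l ^ (k + 1) * i := ⟨l ^ k * i, by rw [pow_succ]; ring⟩
          have h4 : l ∣ 1 := (Nat.dvd_add_right h3).1 h2
          exact hl.out.one_lt.ne' (Nat.dvd_one.1 h4)
        rw [this]
        push_cast
        ring
      · rw [hdeg, pow_succ]
        have : (l - 1) * (l ^ k * (l - 1)) ≤ l * (l ^ k * (l - 1)) := Nat.mul_le_mul_right _ (by omega)
        calc _ ≤ l * (l ^ k * (l - 1)) := this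
          _ = _ := by ring
      · intro h
        exfalso
        have : 0 < l ^ k * (l - 1) := Nat.mul_pos (pow_pos hl.out.pos _) (by omega)
        omega

/-- a monic polynomial whose irreducible monic factors divide `X^(l^s) - 1` is good -/
theorem good_of_factors (s : ℕ) : ∀ (d : ℕ) (f : ℚ_[l][X]), f.natDegree = d → f.Monic →
    (∀ q : ℚ_[l][X], q.Monic → Irreducible q → q ∣ f → q ∣ X ^ (l ^ s) - 1) → ∃ j, Good l f j := by
  intro d
  induction d using Nat.strong_induction_on with
  | _ d ih =>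
    intro f hd hf hq
    rcases Nat.eq_zero_or_pos d with h0 | h0
    · have : f = 1 := by
        rw [← hf.natDegree_eq_zero]
        omega
      exact ⟨0, this ▸ good_one⟩
    · obtain ⟨q, hqm, hqi, hqf⟩ := exists_monic_irreducible_factor f
        (not_isUnit_of_natDegree_pos f (by omega))
      obtain ⟨g, hg⟩ := hqf
      have hgm : g.Monic := hqm.of_mul_monic_left (hg ▸ hf)
      have hdeg : q.natDegree + g.natDegree = d := by
        rw [← hd, hg, hqm.natDegree_mul hgm]
      have hqpos : 0 < q.natDegree := Irreducible.natDegree_pos hqi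
      obtain ⟨j', hj'⟩ := ih g.natDegree (by omega) g rfl hgm
        (fun p hp hpi hpg => hq p hp hpi (hpg.trans ⟨q, by rw [hg, mul_comm]⟩))
      have hqd := hq q hqm hqi ⟨g, hg⟩
      have hprime : Prime q := hqi.prime
      rw [← prod_cyclotomic_eq_X_pow_sub_one (pow_pos hl.out.pos s)] at hqd
      obtain ⟨e, he, hqe⟩ := (hprime.dvd_finsetProd_iff _).1 hqd
      obtain ⟨k, hk, rfl⟩ := (Nat.dvd_prime_pow hl.out).1 (Nat.dvd_of_mem_divisors he)
      have hirr : Irreducible (cyclotomic (l ^ k) ℚ_[l]) := by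
        cases k with
        | zero =>
          rw [pow_zero, cyclotomic_one, ← C_1]
          exact irreducible_X_sub_C 1
        | succ k => exact irr_cyc_pow k
      have hass : Associated q (cyclotomic (l ^ k) ℚ_[l]) := hqi.associated_of_dvd hirr hqe
      have heq : q = cyclotomic (l ^ k) ℚ_[l] := eq_of_monic_of_associated hqm (cyclotomic.monic _ _) hass
      obtain ⟨j, hj⟩ := good_cyc (l := l) k
      refine ⟨j + j', ?_⟩
      rw [hg, heq]
      exact good_mul hj hj'

end cyc2

section mat

variable {l : ℕ} [hl : Fact l.Prime]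

/-- the trace of a matrix of order a power of `l` -/
theorem trace_form {m : ℕ} (A : Matrix (Fin m) (Fin m) ℚ_[l]) {s : ℕ} (hA : A ^ (l ^ s) = 1) :
    ∃ j : ℕ, A.trace = (m : ℚ_[l]) - l * j ∧ (l - 1) * j ≤ m ∧ (j = 0 → A = 1) := by
  have hfac : ∀ q : ℚ_[l][X], q.Monic → Irreducible q → q ∣ A.charpoly → q ∣ X ^ (l ^ s) - 1 := by
    intro q hqm hqi hqd
    let K := AlgebraicClosure ℚ_[l]
    obtain ⟨α, hα⟩ := IsAlgClosed.exists_aeval_eq_zero K q (degree_pos_of_irreducible hqi).ne'
    have h1 : (A.map (algebraMap ℚ_[l] K)).charpoly.IsRoot α := by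
      rw [Matrix.charpoly_map, IsRoot.def, eval_map_algebraMap]
      obtain ⟨c, hc⟩ := hqd
      rw [hc, map_mul, hα, zero_mul]
    have h2 : α ∈ spectrum K (A.map (algebraMap ℚ_[l] K)) :=
      Matrix.mem_spectrum_of_isRoot_charpoly h1
    have h3 : α ^ (l ^ s) ∈ spectrum K ((A.map (algebraMap ℚ_[l] K)) ^ (l ^ s)) :=
      spectrum.pow_mem_pow _ _ h2
    have h4 : (A.map (algebraMap ℚ_[l] K)) ^ (l ^ s) = 1 := by
      rw [← Matrix.map_pow, hA]
      exact Matrix.map_one _ (map_zero _) (map_one _)
    have h5 : α ^ (l ^ s) = 1 := by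
      rw [h4] at h3
      rcases isEmpty_or_nonempty (Fin m) with he | he
      · exfalso
        rw [spectrum.mem_iff] at h3
        exact h3 (isUnit_of_subsingleton _)
      · rw [spectrum.one_eq] at h3
        exact h3
    have h6 : q = minpoly ℚ_[l] α := minpoly.eq_of_irreducible_of_monic hqi hα hqm
    rw [h6]
    apply minpoly.dvd
    simp [h5]
  obtain ⟨j, hm, h1, h2, h3⟩ := good_of_factors s _ A.charpoly rfl A.charpoly_monic hfac
  have hdeg : A.charpoly.natDegree = m := by
    rw [Matrix.charpoly_natDegree_eq_dim, Fintype.card_fin]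
  rw [hdeg] at h1 h2 h3
  refine ⟨j, ?_, h2, fun h0 => ?_⟩
  · rw [Matrix.trace_eq_neg_charpoly_nextCoeff, h1]
  · -- `A - 1` is nilpotent and `A` has finite order
    have h4 : (A - 1) ^ m = 0 := by
      have := Matrix.aeval_self_charpoly A
      rw [h3 h0] at this
      simpa using this
    have hN : ((l ^ s : ℕ) : ℚ_[l]) ≠ 0 := by
      exact_mod_cast (pow_pos hl.out.pos s).ne'
    have hcop : IsCoprime (∑ i ∈ range (l ^ s), (X : ℚ_[l][X]) ^ i) ((X - C 1) ^ m) := by
      refine IsCoprime.pow_right ?_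
      have hirr : Irreducible (X - C 1 : ℚ_[l][X]) := irreducible_X_sub_C 1
      refine ((Irreducible.coprime_iff_not_dvd hirr).2 ?_).symm
      rw [dvd_iff_isRoot, IsRoot.def, eval_finsetSum]
      simpa using hN
    obtain ⟨u, v, huv⟩ := hcop
    have h5 := congrArg (fun p => (A - 1) * aeval A p) huv
    simp only [map_add, map_mul, map_sum, map_pow, aeval_X, map_sub, aeval_C, map_one] at h5
    rw [h4, mul_zero, add_zero, mul_one, ← mul_assoc] at h5
    have h6 : (A - 1) * aeval A u = aeval A u * (A - 1) := by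
      have e : (A - 1) = aeval A (X - C 1 : ℚ_[l][X]) := by simp
      rw [e, ← map_mul, ← map_mul, mul_comm]
    rw [h6, mul_assoc, mul_geom_sum, hA, sub_self, mul_zero] at h5
    exact (sub_eq_zero.1 h5.symm)

end mat

section avg

open Representation

/-- the sum of the `k`-th powers of the character is an integer multiple of the group order -/
theorem sum_char_pow {K : Type} [Field K] [CharZero K] {G : Type*} [Group G] [Fintype G] {V : Type}
    [AddCommGroup V] [Module K V] [FiniteDimensional K V] (ρ : Representation K G V) (k : ℕ) :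
    ∃ z : ℕ, ∑ g, (ρ.character g) ^ k = (Nat.card G : K) * z := by
  have hex : ∀ k : ℕ, ∃ (W : Type) (_ : AddCommGroup W) (_ : Module K W) (_ : FiniteDimensional K W)
      (π : Representation K G W), ∀ g, π.character g = (ρ.character g) ^ k := by
    intro k
    induction k with
    | zero =>
      refine ⟨K, inferInstance, inferInstance, inferInstance, 1, fun g => ?_⟩
      rw [pow_zero, character]
      show LinearMap.trace K K ((1 : G →* (K →ₗ[K] K)) g) = 1
      rw [MonoidHom.one_apply, LinearMap.trace_one]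
      simp
    | succ k ih =>
      obtain ⟨W, _, _, _, π, h⟩ := ih
      refine ⟨TensorProduct K W V, inferInstance, inferInstance, inferInstance, tprod π ρ, fun g => ?_⟩
      rw [char_tensor, Pi.mul_apply, h, pow_succ]
  obtain ⟨W, _, _, _, π, h⟩ := hex k
  have hc : (Nat.card G : K) ≠ 0 := by exact_mod_cast (Nat.card_pos (α := G)).ne'
  let _inv : Invertible (Nat.card G : K) := invertibleOfNonzero hc
  refine ⟨Module.finrank K (invariants π), ?_⟩
  rw [← card_inv_mul_sum_char_eq_finrank π]
  simp only [h]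
  field_simp

end avg

section schur

variable {l : ℕ} [hl : Fact l.Prime]

/-- **Minkowski, Schur.**  A finite `l`-group of invertible `l`-adic matrices of size `m` has order
dividing `l^a a!`, `a = m / (l-1)`. -/
theorem schur_mat {m : ℕ} {Q : Type*} [Group Q] [Finite Q] (hQ : IsPGroup l Q)
    (ρ : Q →* Matrix (Fin m) (Fin m) ℚ_[l]) (hρ : Function.Injective ρ) :
    Nat.card Q ∣ l ^ (m / (l - 1)) * (m / (l - 1)).factorial := by
  classical
  have hl1 : 1 < l := hl.out.one_lt
  have : Fintype Q := Fintype.ofFinite Q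
  set a : ℕ := m / (l - 1) with ha
  obtain ⟨s, hs⟩ := IsPGroup.iff_card.1 hQ
  have hpow : ∀ g : Q, (ρ g) ^ (l ^ s) = 1 := by
    intro g
    rw [← map_pow, ← hs, pow_card_eq_one', map_one]
  choose j h1 h2 h3 using fun g => trace_form (ρ g) (hpow g)
  -- the representation
  let π : Representation ℚ_[l] Q (Fin m → ℚ_[l]) :=
    ((Matrix.toLinAlgEquiv' : Matrix (Fin m) (Fin m) ℚ_[l] ≃ₐ[ℚ_[l]] _) : _ →* _).comp ρ
  have hchar : ∀ g, π.character g = (m : ℚ_[l]) - l * j g := by
    intro g
    rw [← h1 g]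
    show LinearMap.trace _ _ (Matrix.toLin' (ρ g)) = _
    rw [Matrix.trace_toLin'_eq]
  have hsum : ∀ P : ℤ[X], ∃ z : ℤ, ∑ g, aeval (π.character g) P = (Nat.card Q : ℚ_[l]) * z := by
    intro P
    induction P using Polynomial.induction_on' with
    | add p q hp hq =>
      obtain ⟨z, hz⟩ := hp
      obtain ⟨w, hw⟩ := hq
      refine ⟨z + w, ?_⟩
      simp only [map_add, sum_add_distrib]
      rw [hz, hw]; push_cast; ring
    | monomial k c =>
      obtain ⟨z, hz⟩ := sum_char_pow π k
      refine ⟨c * z, ?_⟩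
      simp only [aeval_monomial]
      rw [← mul_sum, hz]
      simp
      ring
  obtain ⟨z, hz⟩ := hsum (∏ i ∈ range a, (X - C (m : ℤ) + C ((l : ℤ) * (i + 1))))
  have hval : ∀ g, aeval (π.character g) (∏ i ∈ range a, (X - C (m : ℤ) + C ((l : ℤ) * (i + 1)))) =
      if g = 1 then ((l ^ a * a.factorial : ℕ) : ℚ_[l]) else 0 := by
    intro g
    rw [map_prod]
    have e : ∀ i ∈ range a, aeval (π.character g) (X - C (m : ℤ) + C ((l : ℤ) * (i + 1))) =
        (l : ℚ_[l]) * ((i + 1 : ℕ) - j g) := by
      intro i _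
      rw [map_add, map_sub, aeval_X, aeval_C, aeval_C, hchar]
      push_cast
      simp
      ring
    rw [prod_congr rfl e]
    by_cases hg : g = 1
    · rw [if_pos hg]
      have hj : j g = 0 := by
        have h4 := h1 g
        rw [hg, map_one, Matrix.trace_one, Fintype.card_fin] at h4
        have h5 : (l : ℚ_[l]) * j 1 = 0 := by linear_combination h4
        rcases mul_eq_zero.1 h5 with h6 | h6
        · exact absurd h6 (by exact_mod_cast hl.out.ne_zero)
        · rw [hg]; exact_mod_cast h6
      rw [hj]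
      rw [prod_mul_distrib, prod_const, card_range]
      push_cast
      congr 1
      rw [← prod_range_add_one_eq_factorial]
      push_cast
      refine prod_congr rfl fun i _ => by simp
    · rw [if_neg hg]
      have hj0 : j g ≠ 0 := fun h => hg (hρ (by rw [h3 g h, map_one]))
      have hja : j g ≤ a := by
        rw [ha, Nat.le_div_iff_mul_le (by omega), mul_comm]
        exact h2 g
      refine prod_eq_zero (mem_range.2 (by omega : j g - 1 < a)) ?_
      have : (j g - 1 + 1 : ℕ) = j g := by omega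
      rw [this, sub_self, mul_zero]
  rw [sum_congr rfl fun g _ => hval g, sum_ite_eq' univ (1 : Q), if_pos (mem_univ _)] at hz
  have hz' : ((l ^ a * a.factorial : ℕ) : ℤ) = (Nat.card Q : ℤ) * z := by exact_mod_cast hz
  exact Int.natCast_dvd_natCast.1 ⟨z, hz'⟩

/-- the same for a finite dimensional space -/
theorem schur_space {V : Type*} [AddCommGroup V] [Module ℚ_[l] V] [FiniteDimensional ℚ_[l] V]
    {Q : Type*} [Group Q] [Finite Q] (hQ : IsPGroup l Q)
    (ρ : Q →* Module.End ℚ_[l] V) (hρ : Function.Injective ρ) :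
    Nat.card Q ∣ l ^ (Module.finrank ℚ_[l] V / (l - 1)) *
      (Module.finrank ℚ_[l] V / (l - 1)).factorial := by
  let b := Module.finBasis ℚ_[l] V
  refine schur_mat hQ (((LinearMap.toMatrixAlgEquiv b : _ ≃ₐ[ℚ_[l]] _) : _ →* _).comp ρ) ?_
  exact (LinearMap.toMatrixAlgEquiv b).injective.comp hρ

end schur

end MP89bZ
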